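import Mathlib
import Pool.Agent.Helper5.CV.Defs

/-!
# The biased clique game: basic facts on `Λ_j`, `κ` and the constant `c*`
-/

set_option autoImplicit false

namespace Pool.Agent.Helper34.GC

open Pool.Agent.Helper5.CV

noncomputable section

lemma L_zero (m b : ℕ) : lam m b 0 = 0 := by simp [lam]

lemma arg_pos (m b j : ℕ) : (0 : ℝ) < 1 + (b : ℝ) * j / m := by positivity

lemma L_nonneg (m b j : ℕ) : 0 ≤ lam m b j :=
  Real.log_nonneg (by linarith [show (0 : ℝ) ≤ (b : ℝ) * j / m by positivity])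

lemma L_pos {m b j : ℕ} (hm : 1 ≤ m) (hb : 1 ≤ b) (hj : 1 ≤ j) : 0 < lam m b j := by
  have h1 : (1 : ℝ) ≤ m := by exact_mod_cast hm
  have h2 : (1 : ℝ) ≤ b := by exact_mod_cast hb
  have h3 : (1 : ℝ) ≤ j := by exact_mod_cast hj
  exact Real.log_pos (by linarith [show (0 : ℝ) < (b : ℝ) * j / m by positivity])

lemma L_self {m b : ℕ} (hm : 1 ≤ m) : lam m b m = Real.log (1 + b) := by
  have h1 : (m : ℝ) ≠ 0 := by positivity
  unfold lam
  rw [mul_div_assoc, div_self h1, mul_one]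

lemma L_mono {m b i j : ℕ} (h : i ≤ j) : lam m b i ≤ lam m b j := by
  have h1 : (i : ℝ) ≤ j := by exact_mod_cast h
  unfold lam
  apply Real.log_le_log (arg_pos m b i)
  have : (b : ℝ) * i / m ≤ (b : ℝ) * j / m := by gcongr
  linarith

/-- Concavity of `Λ`. -/
lemma L_concave {m b i j k : ℕ} (hij : i ≤ j) (hjk : j ≤ k) :
    ((k : ℝ) - j) * lam m b i + ((j : ℝ) - i) * lam m b k ≤ ((k : ℝ) - i) * lam m b j := by
  rcases Nat.eq_or_lt_of_le (hij.trans hjk) with h | h
  · have h1 : i = j := by omega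
    have h2 : k = j := by omega
    subst h1; subst h2; simp
  have hik : (0 : ℝ) < (k : ℝ) - i := by
    have : (i : ℝ) < k := by exact_mod_cast h
    linarith
  have h1 : (0 : ℝ) ≤ (k : ℝ) - j := by
    have : (j : ℝ) ≤ k := by exact_mod_cast hjk
    linarith
  have h2 : (0 : ℝ) ≤ (j : ℝ) - i := by
    have : (i : ℝ) ≤ j := by exact_mod_cast hij
    linarith
  have hc := strictConcaveOn_log_Ioi.concaveOn.2 (arg_pos m b i) (arg_pos m b k)
    (div_nonneg h1 hik.le) (div_nonneg h2 hik.le) (by field_simp; ring)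
  simp only [smul_eq_mul] at hc
  have he : ((k : ℝ) - j) / ((k : ℝ) - i) * (1 + (b : ℝ) * i / m)
      + ((j : ℝ) - i) / ((k : ℝ) - i) * (1 + (b : ℝ) * k / m) = 1 + (b : ℝ) * j / m := by
    rcases eq_or_ne (m : ℝ) 0 with hm | hm
    · rw [hm]; simp; field_simp; ring
    · field_simp
      ring
  rw [he] at hc
  unfold lam
  have := mul_le_mul_of_nonneg_left hc hik.le
  calc ((k : ℝ) - j) * Real.log (1 + (b : ℝ) * i / m) + ((j : ℝ) - i) * Real.log (1 + (b : ℝ) * k / m)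
      = ((k : ℝ) - i) * (((k : ℝ) - j) / ((k : ℝ) - i) * Real.log (1 + (b : ℝ) * i / m)
        + ((j : ℝ) - i) / ((k : ℝ) - i) * Real.log (1 + (b : ℝ) * k / m)) := by
        field_simp
    _ ≤ _ := this

/-- Strict concavity at `1`: `Λ_m < m Λ_1` for `m ≥ 2`. -/
lemma K_pos {m b : ℕ} (hm : 2 ≤ m) (hb : 1 ≤ b) : 0 < Kc m b := by
  have h1 : (2 : ℝ) ≤ m := by exact_mod_cast hm
  have h2 : (1 : ℝ) ≤ b := by exact_mod_cast hb
  unfold Kc
  rw [L_self (by omega)]
  unfold lam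
  have h3 : (m : ℝ) * Real.log (1 + (b : ℝ) * (1 : ℕ) / m)
      = Real.log ((1 + (b : ℝ) * (1 : ℕ) / m) ^ m) := by
    rw [Real.log_pow]
  rw [h3]
  have h4 : (1 : ℝ) + b < (1 + (b : ℝ) * (1 : ℕ) / m) ^ m := by
    have h5 := one_add_mul_self_lt_rpow_one_add (s := (b : ℝ) * (1 : ℕ) / m)
      (by have : (0 : ℝ) ≤ (b : ℝ) * (1 : ℕ) / m := by positivity
          linarith) (by positivity) (p := (m : ℝ)) (by linarith)
    rw [Real.rpow_natCast] at h5
    calc (1 : ℝ) + b = 1 + (m : ℝ) * ((b : ℝ) * (1 : ℕ) / m) := by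
          push_cast; field_simp
      _ < _ := h5
  have := Real.log_lt_log (by linarith) h4
  linarith

lemma k_add (m b n : ℕ) (hm : 1 ≤ m) : kap m b (n + m) = kap m b n + lam m b m := by
  unfold kap
  rw [Nat.add_div_right n (by omega), Nat.add_mod_right]
  push_cast
  ring

lemma k_of_lt {m b n : ℕ} (h : n < m) : kap m b n = lam m b n := by
  unfold kap
  rw [Nat.div_eq_of_lt h, Nat.mod_eq_of_lt h]
  simp

lemma k_self {m b : ℕ} (hm : 1 ≤ m) : kap m b m = lam m b m := by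
  have := k_add m b 0 hm
  rw [zero_add, k_of_lt (by omega : 0 < m), L_zero] at this
  simpa using this

lemma k_of_le {m b n : ℕ} (hm : 1 ≤ m) (h : n ≤ m) : kap m b n = lam m b n := by
  rcases Nat.lt_or_eq_of_le h with h | h
  · exact k_of_lt h
  · rw [h]; exact k_self hm

lemma k_ge {m b : ℕ} (hm : 1 ≤ m) (n : ℕ) : (n : ℝ) * lam m b m ≤ (m : ℝ) * kap m b n := by
  have h1 : ((n % m : ℕ) : ℝ) * lam m b m ≤ (m : ℝ) * lam m b (n % m) := by
    have := L_concave (m := m) (b := b) (i := 0) (j := n % m) (k := m) (by omega)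
      (Nat.mod_lt n (by omega)).le
    rw [L_zero] at this
    push_cast at this
    linarith
  have h2 : (n : ℝ) = (m : ℝ) * ((n / m : ℕ) : ℝ) + ((n % m : ℕ) : ℝ) := by
    exact_mod_cast (Nat.div_add_mod n m).symm
  unfold kap
  rw [h2]
  nlinarith

/-- The three conditions on `c` which give the static inequality. -/
structure Cond (m b : ℕ) (c : ℝ) : Prop where
  h1 : 2 ≤ c * lam m b 1
  h2 : (m : ℝ) ≤ c * lam m b m
  h3 : (m : ℝ) + 1 ≤ c * lam m b m ∨
    ((m : ℝ) + 1 - c * lam m b m) ^ 2 ≤ (c * lam m b 1 - 2) * (m * (c * lam m b m - 2))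

end

end Pool.Agent.Helper34.GC
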