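import Mathlib
import Pool.Agent.Helper34.GC.Num

/-!
# The biased clique game: `c*` satisfies the three conditions
-/

set_option autoImplicit false

namespace Pool.Agent.Helper34.GC

open Pool.Agent.Helper5.CV

/-- The number `x = Q* Λ_m`: `x ≥ 2` and `x (x - 2) K = (m-1)² Λ_m` (if `m ≥ 2`). -/
lemma Qst_eq {m b : ℕ} (hm : 2 ≤ m) (hb : 1 ≤ b) :
    2 < Qst m b * lam m b m ∧
    Qst m b * lam m b m * (Qst m b * lam m b m - 2) * Kc m b
      = ((m : ℝ) - 1) ^ 2 * lam m b m := by
  have hΛ : 0 < lam m b m := L_pos (by omega) hb (by omega)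
  have hK : 0 < Kc m b := K_pos hm hb
  have h1 : (2 : ℝ) ≤ m := by exact_mod_cast hm
  have hr : 0 < ((m : ℝ) - 1) ^ 2 * lam m b m / Kc m b := by
    have : 0 < (m : ℝ) - 1 := by linarith
    positivity
  have hx : Qst m b * lam m b m = 1 + √(1 + ((m : ℝ) - 1) ^ 2 * lam m b m / Kc m b) := by
    unfold Qst
    field_simp
  have hs : √(1 + ((m : ℝ) - 1) ^ 2 * lam m b m / Kc m b) ^ 2
      = 1 + ((m : ℝ) - 1) ^ 2 * lam m b m / Kc m b := Real.sq_sqrt (by linarith)
  have hs1 : 1 < √(1 + ((m : ℝ) - 1) ^ 2 * lam m b m / Kc m b) := by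
    rw [Real.lt_sqrt (by norm_num)]
    linarith
  rw [hx]
  refine ⟨by linarith, ?_⟩
  set r := √(1 + ((m : ℝ) - 1) ^ 2 * lam m b m / Kc m b) with hrdef
  have : (1 + r) * (1 + r - 2) = ((m : ℝ) - 1) ^ 2 * lam m b m / Kc m b := by
    nlinarith
  rw [this]
  field_simp

lemma Qst_one {b : ℕ} : Qst 1 b = 2 / lam 1 b 1 := by
  unfold Qst
  norm_num

/-- For `m ≥ 2` the number `Q*` satisfies `(iii)` with equality. -/
lemma Qst_eq2 {m b : ℕ} (hm : 2 ≤ m) (hb : 1 ≤ b) :
    (Qst m b * lam m b 1 - 2) * (m * (Qst m b * lam m b m - 2))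
      = ((m : ℝ) + 1 - Qst m b * lam m b m) ^ 2 := by
  obtain ⟨h2, h3⟩ := Qst_eq hm hb
  have hΛ : 0 < lam m b m := L_pos (by omega) hb (by omega)
  have hK : 0 < Kc m b := K_pos hm hb
  set Q := Qst m b with hQ
  have e1 : (m : ℝ) * lam m b 1 = Kc m b + lam m b m := by unfold Kc; ring
  -- Q (Q Λ - 2) K = (m-1)^2
  have e2 : Q * (Q * lam m b m - 2) * Kc m b = ((m : ℝ) - 1) ^ 2 := by
    have : (Q * (Q * lam m b m - 2) * Kc m b - ((m : ℝ) - 1) ^ 2) * lam m b m = 0 := by
      linarith [h3, show Q * lam m b m * (Q * lam m b m - 2) * Kc m b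
        = Q * (Q * lam m b m - 2) * Kc m b * lam m b m by ring]
    rcases mul_eq_zero.1 this with h | h
    · linarith
    · exact absurd h hΛ.ne'
  calc (Q * lam m b 1 - 2) * (m * (Q * lam m b m - 2))
      = (Q * (m * lam m b 1) - 2 * m) * (Q * lam m b m - 2) := by ring
    _ = (Q * (Kc m b + lam m b m) - 2 * m) * (Q * lam m b m - 2) := by rw [e1]
    _ = Q * (Q * lam m b m - 2) * Kc m b + (Q * lam m b m - 2 * m) * (Q * lam m b m - 2) := by ring
    _ = ((m : ℝ) - 1) ^ 2 + (Q * lam m b m - 2 * m) * (Q * lam m b m - 2) := by rw [e2]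
    _ = _ := by ring

/-- `S* ≤ Q*` fails: then `2 Λ_m > (m+1) Λ_1`. -/
lemma not_Sst_le {m b : ℕ} (hm : 1 ≤ m) (hb : 1 ≤ b) (h : ¬ Sst m b ≤ Qst m b) :
    ((m : ℝ) + 1) * lam m b 1 < 2 * lam m b m := by
  have hm2 : 2 ≤ m := by
    by_contra hc
    have : m = 1 := by omega
    subst this
    apply h
    unfold Sst
    rw [Qst_one]
    have := L_pos (m := 1) (b := b) (j := 1) (by omega) hb (by omega)
    norm_num
    positivity
  obtain ⟨h2, h3⟩ := Qst_eq hm2 hb
  have hΛ : 0 < lam m b m := L_pos (by omega) hb (by omega)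
  have hK : 0 < Kc m b := K_pos hm2 hb
  have h1 : (2 : ℝ) ≤ m := by exact_mod_cast hm2
  push Not at h
  have hS : Sst m b * Kc m b = (m : ℝ) - 1 := by
    unfold Sst
    field_simp
  set Q := Qst m b with hQ
  set S := Sst m b with hSd
  have hQ0 : 0 < Q := by
    by_contra hc
    push Not at hc
    have : Q * lam m b m ≤ 0 := mul_nonpos_of_nonpos_of_nonneg hc hΛ.le
    linarith
  -- x = Q Λ, D = S Λ, D > x, x (x - 2) = (m-1) D, so D - 2 < m - 1
  have e1 : Q * lam m b m * (Q * lam m b m - 2) = ((m : ℝ) - 1) * (S * lam m b m) := by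
    have : (Q * lam m b m * (Q * lam m b m - 2) - ((m : ℝ) - 1) * (S * lam m b m)) * Kc m b = 0 := by
      calc (Q * lam m b m * (Q * lam m b m - 2) - ((m : ℝ) - 1) * (S * lam m b m)) * Kc m b
          = Q * lam m b m * (Q * lam m b m - 2) * Kc m b
            - ((m : ℝ) - 1) * (S * Kc m b) * lam m b m := by ring
        _ = ((m : ℝ) - 1) ^ 2 * lam m b m - ((m : ℝ) - 1) * ((m : ℝ) - 1) * lam m b m := by
            rw [h3, hS]
        _ = 0 := by ring
    rcases mul_eq_zero.1 this with h | h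
    · linarith
    · exact absurd h hK.ne'
  set x := Q * lam m b m with hx
  set D := S * lam m b m with hD
  have hxD : x < D := mul_lt_mul_of_pos_right h hΛ
  -- D > m + 1
  have hDm : (m : ℝ) + 1 < D := by
    by_contra hc
    push Not at hc
    -- D (D - 2) > x (x-2) = (m-1) D
    have h5 : x * (x - 2) < D * (D - 2) := by nlinarith
    rw [e1] at h5
    have hD0 : 0 < D := by linarith
    have h6 : ((m : ℝ) - 1) < D - 2 := by
      by_contra hc2
      push Not at hc2
      have : D * (D - 2) ≤ D * ((m : ℝ) - 1) := mul_le_mul_of_nonneg_left hc2 hD0.le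
      linarith [mul_comm D ((m : ℝ) - 1)]
    linarith
  -- (m-1) Λ > (m+1) K
  have h7 : ((m : ℝ) + 1) * Kc m b < ((m : ℝ) - 1) * lam m b m := by
    calc ((m : ℝ) + 1) * Kc m b < D * Kc m b := mul_lt_mul_of_pos_right hDm hK
      _ = (S * Kc m b) * lam m b m := by rw [hD]; ring
      _ = ((m : ℝ) - 1) * lam m b m := by rw [hS]
  unfold Kc at h7
  have h8 : (m : ℝ) * (((m : ℝ) + 1) * lam m b 1) < (m : ℝ) * (2 * lam m b m) := by linarith
  exact lt_of_mul_lt_mul_left h8 (by linarith)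

/-- `c*` satisfies the three conditions. -/
theorem cond_cst {m b : ℕ} (hm : 1 ≤ m) (hb : 1 ≤ b) : Cond m b (cst m b) := by
  have hΛ : 0 < lam m b m := L_pos (by omega) hb (by omega)
  have hΛ1 : 0 < lam m b 1 := L_pos (by omega) hb (by omega)
  have h1 : (1 : ℝ) ≤ m := by exact_mod_cast hm
  have hc1 : (m : ℝ) / lam m b m ≤ cst m b := le_max_left _ _
  have hH2 : (m : ℝ) ≤ cst m b * lam m b m := by
    rwa [div_le_iff₀ hΛ] at hc1
  by_cases hSQ : Sst m b ≤ Qst m b
  · have hcQ : Qst m b ≤ cst m b := by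
      unfold cst
      rw [if_pos hSQ]
      exact le_max_right _ _
    rcases Nat.eq_or_lt_of_le hm with hm1 | hm2
    · subst hm1
      rw [Qst_one, div_le_iff₀ hΛ1] at hcQ
      refine ⟨hcQ, hH2, Or.inl ?_⟩
      push_cast
      linarith
    · have hm2' : 2 ≤ m := hm2
      obtain ⟨h2, h3⟩ := Qst_eq hm2' hb
      have h4 := Qst_eq2 hm2' hb
      have hA : 0 ≤ Qst m b * lam m b 1 - 2 := by
        by_contra hc
        push Not at hc
        have h5 : (0 : ℝ) < m * (Qst m b * lam m b m - 2) := by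
          apply mul_pos (by linarith) (by linarith)
        have := mul_neg_of_neg_of_pos hc h5
        nlinarith [sq_nonneg ((m : ℝ) + 1 - Qst m b * lam m b m)]
      have g1 : Qst m b * lam m b 1 ≤ cst m b * lam m b 1 :=
        mul_le_mul_of_nonneg_right hcQ hΛ1.le
      have g2 : Qst m b * lam m b m ≤ cst m b * lam m b m :=
        mul_le_mul_of_nonneg_right hcQ hΛ.le
      refine ⟨by linarith, hH2, ?_⟩
      by_cases h6 : (m : ℝ) + 1 ≤ cst m b * lam m b m
      · exact Or.inl h6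
      · right
        push Not at h6
        calc ((m : ℝ) + 1 - cst m b * lam m b m) ^ 2
            ≤ ((m : ℝ) + 1 - Qst m b * lam m b m) ^ 2 := by
              apply pow_le_pow_left₀ (by linarith) (by linarith)
          _ = (Qst m b * lam m b 1 - 2) * (m * (Qst m b * lam m b m - 2)) := h4.symm
          _ ≤ (cst m b * lam m b 1 - 2) * (m * (cst m b * lam m b m - 2)) := by
              apply mul_le_mul (by linarith) _ (by apply mul_nonneg (by linarith) (by linarith))
                (by linarith)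
              apply mul_le_mul_of_nonneg_left (by linarith) (by linarith)
  · have hc2 : 2 / lam m b 1 ≤ cst m b := by
      unfold cst
      rw [if_neg hSQ]
      exact le_max_right _ _
    have h5 := not_Sst_le hm hb hSQ
    have hH1 : 2 ≤ cst m b * lam m b 1 := by rwa [div_le_iff₀ hΛ1] at hc2
    refine ⟨hH1, hH2, Or.inl ?_⟩
    have h6 : ((m : ℝ) + 1) * lam m b 1 ≤ (cst m b * lam m b m) * lam m b 1 := by
      calc ((m : ℝ) + 1) * lam m b 1 ≤ 2 * lam m b m := h5.le
        _ ≤ (cst m b * lam m b 1) * lam m b m := mul_le_mul_of_nonneg_right hH1 hΛ.le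
        _ = _ := by ring
    exact le_of_mul_le_mul_right h6 hΛ1

end Pool.Agent.Helper34.GC
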