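import Mathlib
import Pool.Agent.Helper34.GC.Num

/-!
# The biased clique game: the subclaim `c Λ_2 ≥ 3` for `m ≥ 4`
-/

set_option autoImplicit false

namespace Pool.Agent.Helper34.GC

open Pool.Agent.Helper5.CV

lemma log_pow_le {u v : ℝ} {p q : ℕ} (hu : 0 < u) (h : u ^ p ≤ v ^ q) :
    (p : ℝ) * Real.log u ≤ (q : ℝ) * Real.log v := by
  rw [← Real.log_pow, ← Real.log_pow]
  exact Real.log_le_log (by positivity) h

lemma k2_small {m b : ℕ} (hm : 1 ≤ m) (h : (b : ℝ) ^ 2 ≤ b * m + m ^ 2) :
    3 * lam m b 1 ≤ 2 * lam m b 2 := by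
  have hm0 : (0 : ℝ) < m := by exact_mod_cast hm
  have hb0 : (0 : ℝ) ≤ b := by positivity
  have := log_pow_le (u := 1 + (b : ℝ) * (1 : ℕ) / m) (v := 1 + (b : ℝ) * (2 : ℕ) / m) (p := 3)
    (q := 2) (by positivity) (by
      have hy : ((b : ℝ) / m) ^ 2 ≤ (b : ℝ) / m + 1 := by
        rw [div_pow, div_le_iff₀ (by positivity)]
        have : ((b : ℝ) / m + 1) * m ^ 2 = b * m + m ^ 2 := by field_simp
        rw [this]; exact h
      have hy0 : 0 ≤ (b : ℝ) / m := by positivity
      have e1 : (b : ℝ) * (1 : ℕ) / m = (b : ℝ) / m := by push_cast; ring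
      have e2 : (b : ℝ) * (2 : ℕ) / m = 2 * ((b : ℝ) / m) := by push_cast; ring
      rw [e1, e2]
      set y := (b : ℝ) / m
      nlinarith [mul_nonneg hy0 (sub_nonneg.2 hy)])
  push_cast at this
  unfold lam
  push_cast
  linarith

lemma k2_pow {m b : ℕ} (hm : 1 ≤ m) (h : (1 + (b : ℝ)) ^ 3 ≤ (1 + 2 * ((b : ℝ) / m)) ^ m) :
    3 * lam m b m ≤ m * lam m b 2 := by
  rw [L_self hm]
  have := log_pow_le (u := 1 + (b : ℝ)) (v := 1 + 2 * ((b : ℝ) / m)) (p := 3) (q := m)
    (by positivity) h
  have e2 : lam m b 2 = Real.log (1 + 2 * ((b : ℝ) / m)) := by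
    unfold lam
    congr 2
    push_cast; ring
  rw [e2]
  push_cast at this
  linarith

lemma pow_five {y : ℝ} (hy : 8 / 5 ≤ y) (n : ℕ) (hn : 5 ≤ n) :
    (1 + n * y) ^ 3 ≤ (1 + 2 * y) ^ n := by
  induction n, hn using Nat.le_induction with
  | base =>
    push_cast
    have h0 : 0 ≤ y - 8 / 5 := by linarith
    have key : (1 + 2 * y) ^ 5 - (1 + 5 * y) ^ 3
        = 32 * y ^ 5 + 80 * y ^ 4 - 45 * y ^ 3 - 35 * y ^ 2 - 5 * y := by ring
    have hy0 : 0 ≤ y := by linarith
    have h1 : 8 / 5 * y ≤ y ^ 2 := by nlinarith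
    have h2 : 8 / 5 * y ^ 2 ≤ y ^ 3 := by nlinarith [mul_nonneg (mul_nonneg hy0 hy0) h0]
    have h3 : 8 / 5 * y ^ 3 ≤ y ^ 4 := by
      nlinarith [mul_nonneg (mul_nonneg (mul_nonneg hy0 hy0) hy0) h0]
    have h4 : 0 ≤ y ^ 5 := by positivity
    nlinarith [h1, h2, h3, h4]
  | succ n hn ih =>
    have hn5 : (5 : ℝ) ≤ n := by exact_mod_cast hn
    have hy0 : 0 ≤ y := by linarith
    have h1 : 1 + ((n + 1 : ℕ) : ℝ) * y ≤ 6 / 5 * (1 + n * y) := by
      push_cast
      nlinarith
    calc (1 + ((n + 1 : ℕ) : ℝ) * y) ^ 3 ≤ (6 / 5 * (1 + n * y)) ^ 3 := by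
          apply pow_le_pow_left₀ (by positivity) h1
      _ = (6 / 5) ^ 3 * (1 + n * y) ^ 3 := by ring
      _ ≤ (1 + 2 * y) * (1 + 2 * y) ^ n := by
          apply mul_le_mul _ ih (by positivity) (by positivity)
          norm_num
          linarith
      _ = (1 + 2 * y) ^ (n + 1) := by ring

lemma num_step {b : ℕ} {c r1 r4 : ℝ} (hc : Cond 4 b c)
    (e1 : lam 4 b 1 ≤ r1 * lam 4 b 2)
    (e4 : lam 4 b 4 ≤ r4 * lam 4 b 2) (hr1 : 0 < r1) (hr4 : 0 < r4) (h5 : 3 * r4 < 5)
    (hnum : (3 * r1 - 2) * (4 * (3 * r4 - 2)) ≤ (5 - 3 * r4) ^ 2) : 3 ≤ c * lam 4 b 2 := by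
  by_contra hcon
  push Not at hcon
  have hc0 : 0 ≤ c := by
    by_contra hneg
    push Not at hneg
    have := mul_nonpos_of_nonpos_of_nonneg hneg.le (L_nonneg 4 b 1)
    linarith [hc.h1]
  have f4 : c * lam 4 b 4 < 3 * r4 := by
    calc c * lam 4 b 4 ≤ c * (r4 * lam 4 b 2) := mul_le_mul_of_nonneg_left e4 hc0
      _ = r4 * (c * lam 4 b 2) := by ring
      _ < r4 * 3 := mul_lt_mul_of_pos_left hcon hr4
      _ = 3 * r4 := by ring
  have f1 : c * lam 4 b 1 < 3 * r1 := by
    calc c * lam 4 b 1 ≤ c * (r1 * lam 4 b 2) := mul_le_mul_of_nonneg_left e1 hc0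
      _ = r1 * (c * lam 4 b 2) := by ring
      _ < r1 * 3 := mul_lt_mul_of_pos_left hcon hr1
      _ = 3 * r1 := by ring
  have g1 := hc.h1
  have g2 := hc.h2
  push_cast at g2
  rcases hc.h3 with g3 | g3
  · push_cast at g3
    linarith
  · push_cast at g3
    have a1 : (5 - 3 * r4) ^ 2 < (4 + 1 - c * lam 4 b 4) ^ 2 := by
      apply pow_lt_pow_left₀ (by linarith) (by linarith) (by norm_num)
    have a2 : (c * lam 4 b 1 - 2) * (4 * (c * lam 4 b 4 - 2))
        ≤ (3 * r1 - 2) * (4 * (3 * r4 - 2)) := by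
      apply mul_le_mul (by linarith) (by linarith) (by linarith) (by linarith)
    linarith

/-- SUBCLAIM: `c Λ_2 ≥ 3` for `m ≥ 4`. -/
theorem subclaim {m b : ℕ} {c : ℝ} (hm : 4 ≤ m) (hb : 1 ≤ b) (hc : Cond m b c) :
    3 ≤ c * lam m b 2 := by
  have hm0 : (0 : ℝ) < m := by
    have : (4 : ℝ) ≤ m := by exact_mod_cast hm
    linarith
  have hL1 := L_pos (m := m) (b := b) (j := 1) (by omega) hb (by omega)
  have hL2 := L_pos (m := m) (b := b) (j := 2) (by omega) hb (by omega)
  have hc0 : 0 ≤ c := by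
    by_contra hneg
    push Not at hneg
    have := mul_nonpos_of_nonpos_of_nonneg hneg.le (L_nonneg m b 1)
    linarith [hc.h1]
  by_cases hsm : (b : ℝ) ^ 2 ≤ b * m + m ^ 2
  · have h1 := k2_small (m := m) (b := b) (by omega) hsm
    have h2 := mul_le_mul_of_nonneg_left h1 hc0
    linarith [hc.h1]
  · have hpow_suff : (1 + (b : ℝ)) ^ 3 ≤ (1 + 2 * ((b : ℝ) / m)) ^ m → 3 ≤ c * lam m b 2 := by
      intro hp
      have h1 := k2_pow (m := m) (b := b) (by omega) hp
      have h2 := mul_le_mul_of_nonneg_left h1 hc0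
      have h3 := hc.h2
      have h4 : (m : ℝ) * 3 ≤ m * (c * lam m b 2) := by linarith
      exact le_of_mul_le_mul_left h4 hm0
    have hy : 8 / 5 ≤ (b : ℝ) / m := by
      by_contra hcon
      push Not at hcon
      apply hsm
      rw [div_lt_iff₀ hm0] at hcon
      have hb0 : (0 : ℝ) ≤ b := by positivity
      nlinarith
    rcases Nat.eq_or_lt_of_le hm with h4 | h5
    · subst h4
      -- m = 4
      have hb7 : 7 ≤ b := by
        have : (8 / 5 : ℝ) * 4 ≤ b := by
          push_cast at hy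
          rw [le_div_iff₀ (by norm_num)] at hy
          exact hy
        have h6 : (6 : ℝ) < b := by linarith
        have : 6 < b := by exact_mod_cast h6
        omega
      by_cases hb11 : 11 ≤ b
      · apply hpow_suff
        have hbr : (11 : ℝ) ≤ b := by exact_mod_cast hb11
        push_cast
        have h0 : 0 ≤ (b : ℝ) - 11 := by linarith
        have key : (1 + 2 * ((b : ℝ) / 4)) ^ 4 - (1 + (b : ℝ)) ^ 3
            = (b : ℝ) ^ 4 / 16 - (b : ℝ) ^ 3 / 2 - 3 / 2 * (b : ℝ) ^ 2 - b := by ring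
        have hb0 : (0 : ℝ) ≤ b := by positivity
        have h1 : 11 * (b : ℝ) ≤ (b : ℝ) ^ 2 := by nlinarith
        have h2 : 11 * (b : ℝ) ^ 2 ≤ (b : ℝ) ^ 3 := by nlinarith [mul_nonneg (mul_nonneg hb0 hb0) h0]
        have h3 : 11 * (b : ℝ) ^ 3 ≤ (b : ℝ) ^ 4 := by
          nlinarith [mul_nonneg (mul_nonneg (mul_nonneg hb0 hb0) hb0) h0]
        nlinarith [h1, h2, h3]
      · have hcases : b = 7 ∨ b = 8 ∨ b = 9 ∨ b = 10 := by omega
        rcases hcases with rfl | rfl | rfl | rfl
        · -- b = 7: 11/4, 9/2, 8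
          have e1 := log_pow_le (u := 11 / 4) (v := 9 / 2) (p := 16) (q := 11) (by norm_num)
            (by norm_num)
          have e4 := log_pow_le (u := 8) (v := 9 / 2) (p := 5) (q := 7) (by norm_num)
            (by norm_num)
          have l1 : lam 4 7 1 = Real.log (11 / 4) := by unfold lam; norm_num
          have l2 : lam 4 7 2 = Real.log (9 / 2) := by unfold lam; norm_num
          have l4 : lam 4 7 4 = Real.log 8 := by unfold lam; norm_num
          push_cast at e1 e4
          exact num_step hc (r1 := 11 / 16) (r4 := 7 / 5) (by rw [l1, l2]; linarith)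
            (by rw [l4, l2]; linarith) (by norm_num) (by norm_num) (by norm_num) (by norm_num)
        · -- b = 8: 3, 5, 9
          have e1 := log_pow_le (u := 3) (v := 5) (p := 16) (q := 11) (by norm_num)
            (by norm_num)
          have e4 := log_pow_le (u := 9) (v := 5) (p := 8) (q := 11) (by norm_num)
            (by norm_num)
          have l1 : lam 4 8 1 = Real.log 3 := by unfold lam; norm_num
          have l2 : lam 4 8 2 = Real.log 5 := by unfold lam; norm_num
          have l4 : lam 4 8 4 = Real.log 9 := by unfold lam; norm_num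
          push_cast at e1 e4
          exact num_step hc (r1 := 11 / 16) (r4 := 11 / 8) (by rw [l1, l2]; linarith)
            (by rw [l4, l2]; linarith) (by norm_num) (by norm_num) (by norm_num) (by norm_num)
        · -- b = 9: 13/4, 11/2, 10
          have e1 := log_pow_le (u := 13 / 4) (v := 11 / 2) (p := 10) (q := 7) (by norm_num)
            (by norm_num)
          have e4 := log_pow_le (u := 10) (v := 11 / 2) (p := 14) (q := 19) (by norm_num)
            (by norm_num)
          have l1 : lam 4 9 1 = Real.log (13 / 4) := by unfold lam; norm_num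
          have l2 : lam 4 9 2 = Real.log (11 / 2) := by unfold lam; norm_num
          have l4 : lam 4 9 4 = Real.log 10 := by unfold lam; norm_num
          push_cast at e1 e4
          exact num_step hc (r1 := 7 / 10) (r4 := 19 / 14) (by rw [l1, l2]; linarith)
            (by rw [l4, l2]; linarith) (by norm_num) (by norm_num) (by norm_num) (by norm_num)
        · -- b = 10: 7/2, 6, 11
          have e1 := log_pow_le (u := 7 / 2) (v := 6) (p := 10) (q := 7) (by norm_num)
            (by norm_num)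
          have e4 := log_pow_le (u := 11) (v := 6) (p := 20) (q := 27) (by norm_num)
            (by norm_num)
          have l1 : lam 4 10 1 = Real.log (7 / 2) := by unfold lam; norm_num
          have l2 : lam 4 10 2 = Real.log 6 := by unfold lam; norm_num
          have l4 : lam 4 10 4 = Real.log 11 := by unfold lam; norm_num
          push_cast at e1 e4
          exact num_step hc (r1 := 7 / 10) (r4 := 27 / 20) (by rw [l1, l2]; linarith)
            (by rw [l4, l2]; linarith) (by norm_num) (by norm_num) (by norm_num) (by norm_num)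
    · apply hpow_suff
      have h6 := pow_five hy m h5
      have e : 1 + (m : ℝ) * ((b : ℝ) / m) = 1 + b := by field_simp
      rw [e] at h6
      exact h6

end Pool.Agent.Helper34.GC
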