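import Mathlib
import Pool.Agent.Helper34.GC.SubK2

/-!
# The biased clique game: the pairwise inequality
-/

set_option autoImplicit false

namespace Pool.Agent.Helper34.GC

open Pool.Agent.Helper5.CV

noncomputable section

/-- `β(h) = 1 + h - c κ(h)`. -/
def be (m b : ℕ) (c : ℝ) (h : ℕ) : ℝ := 1 + h - c * kap m b h

/-- `D(h,h') = c κ(h h') - h - h'`. -/
def dd (m b : ℕ) (c : ℝ) (h h' : ℕ) : ℝ := c * kap m b (h * h') - h - h'

variable {m b : ℕ} {c : ℝ}

lemma Cond.pos (_hm : 1 ≤ m) (_hb : 1 ≤ b) (hc : Cond m b c) : 0 < c := by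
  by_contra hneg
  push Not at hneg
  have := mul_nonpos_of_nonpos_of_nonneg hneg (L_nonneg m b 1)
  linarith [hc.h1]

lemma dd_comm (h h' : ℕ) : dd m b c h h' = dd m b c h' h := by
  unfold dd
  rw [mul_comm h h']
  ring

/-- `c κ(n) ≥ (x/m) n`. -/
lemma k_lower (hm : 1 ≤ m) (hb : 1 ≤ b) (hc : Cond m b c) (n : ℕ) :
    (n : ℝ) * (c * lam m b m) ≤ m * (c * kap m b n) := by
  have h := mul_le_mul_of_nonneg_left (k_ge (b := b) hm n) (hc.pos hm hb).le
  linarith

lemma k_lower1 (hm : 1 ≤ m) (hb : 1 ≤ b) (hc : Cond m b c) (n : ℕ) :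
    (n : ℝ) ≤ c * kap m b n := by
  have hm0 : (0 : ℝ) < m := by exact_mod_cast hm
  have h1 := k_lower hm hb hc n
  have h2 := mul_le_mul_of_nonneg_left hc.h2 (show (0 : ℝ) ≤ (n : ℝ) by positivity)
  have h3 : (m : ℝ) * n ≤ m * (c * kap m b n) := by linarith
  exact le_of_mul_le_mul_left h3 hm0

lemma dd_nonneg (hm : 1 ≤ m) (hb : 1 ≤ b) (hc : Cond m b c) {h h' : ℕ} (h2 : 2 ≤ h)
    (h2' : 2 ≤ h') : 0 ≤ dd m b c h h' := by
  have h1 := k_lower1 hm hb hc (h * h')
  have e1 : (2 : ℝ) ≤ h := by exact_mod_cast h2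
  have e2 : (2 : ℝ) ≤ h' := by exact_mod_cast h2'
  unfold dd
  push_cast at h1
  nlinarith

lemma be_one (hm : 1 ≤ m) : be m b c 1 = -(c * lam m b 1 - 2) := by
  unfold be
  rw [k_of_le hm hm]
  push_cast
  ring

lemma be_conv (hm : 1 ≤ m) (hb : 1 ≤ b) (hc : Cond m b c) {i j k : ℕ} (hij : i ≤ j)
    (hjk : j ≤ k) (hk : k ≤ m) :
    ((k : ℝ) - i) * be m b c j ≤ ((k : ℝ) - j) * be m b c i + ((j : ℝ) - i) * be m b c k := by
  have h1 := mul_le_mul_of_nonneg_left (L_concave (m := m) (b := b) hij hjk) (hc.pos hm hb).le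
  unfold be
  rw [k_of_le hm (by omega), k_of_le hm (by omega), k_of_le hm hk]
  nlinarith

lemma be_add (hm : 1 ≤ m) (h : ℕ) :
    be m b c (h + m) = be m b c h + (m - c * lam m b m) := by
  unfold be
  rw [k_add m b h hm]
  push_cast
  ring

lemma dd_add (hm : 1 ≤ m) (h h' : ℕ) :
    dd m b c (h + m) h' = dd m b c h h' + (h' * (c * lam m b m) - m) := by
  have key : ∀ t : ℕ, kap m b (h * h' + t * m) = kap m b (h * h') + t * lam m b m := by
    intro t
    induction t with
    | zero => simp
    | succ t ih =>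
      have : h * h' + (t + 1) * m = (h * h' + t * m) + m := by ring
      rw [this, k_add m b _ hm, ih]
      push_cast
      ring
  unfold dd
  have e : (h + m) * h' = h * h' + h' * m := by ring
  rw [e, key h']
  push_cast
  ring

lemma pos_mul_le {u v r : ℝ} (hr : 0 ≤ r) (h : 0 ≤ u → 0 ≤ v → u * v ≤ r) :
    max 0 u * max 0 v ≤ r := by
  rcases le_total u 0 with hu | hu
  · rw [max_eq_left hu]; simpa using hr
  · rcases le_total v 0 with hv | hv
    · rw [max_eq_left hv]; simpa using hr
    · rw [max_eq_right hu, max_eq_right hv]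
      exact h hu hv

/-- The pairwise inequality for `2 ≤ h, h' ≤ m`. -/
lemma key_small (hm : 1 ≤ m) (hb : 1 ≤ b) (hc : Cond m b c) {h h' : ℕ} (h2 : 2 ≤ h)
    (h2' : 2 ≤ h') (hh : h ≤ m) (hh' : h' ≤ m) :
    max 0 (be m b c h) * max 0 (be m b c h') ≤ (c * lam m b 1 - 2) * dd m b c h h' := by
  have ha : 0 ≤ c * lam m b 1 - 2 := by linarith [hc.h1]
  have hD := dd_nonneg hm hb hc h2 h2'
  have hR : 0 ≤ (c * lam m b 1 - 2) * dd m b c h h' := mul_nonneg ha hD
  have hm2 : 2 ≤ m := by omega
  have hmr : (2 : ℝ) ≤ m := by exact_mod_cast hm2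
  apply pos_mul_le hR
  intro hu hv
  have hbm : be m b c m = (m : ℝ) + 1 - c * lam m b m := by
    unfold be; rw [k_self hm]; ring
  by_cases hβ : be m b c m ≤ 0
  · have h3 := be_conv hm hb hc (i := 1) (j := h) (k := m) (by omega) hh le_rfl
    rw [be_one hm] at h3
    push_cast at h3
    have hhr : (2 : ℝ) ≤ h := by exact_mod_cast h2
    have hhm : (h : ℝ) ≤ m := by exact_mod_cast hh
    have h4 : ((m : ℝ) - h) * -(c * lam m b 1 - 2) ≤ 0 := by nlinarith
    have h5 : ((h : ℝ) - 1) * be m b c m ≤ 0 := by nlinarith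
    have h6 : ((m : ℝ) - 1) * be m b c h ≤ 0 := by linarith
    have h7 : be m b c h ≤ 0 := by
      by_contra hcon
      push Not at hcon
      have := mul_pos (show (0 : ℝ) < (m : ℝ) - 1 by linarith) hcon
      linarith
    have h8 : be m b c h = 0 := le_antisymm h7 hu
    rw [h8, zero_mul]
    exact hR
  · push Not at hβ
    have h3 : (be m b c m) ^ 2 ≤ (c * lam m b 1 - 2) * (m * (c * lam m b m - 2)) := by
      rcases hc.h3 with h | h
      · exfalso; linarith
      · rw [hbm]; exact h
    rcases Nat.lt_or_ge m 4 with hm4 | hm4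
    · have hcase : m = 2 ∨ m = 3 := by omega
      rcases hcase with hm' | hm'
      · subst hm'
        have e1 : h = 2 := by omega
        have e2 : h' = 2 := by omega
        subst e1; subst e2
        have e3 : kap 2 b 4 = 2 * lam 2 b 2 := by
          have f1 := k_add 2 b 2 (by norm_num)
          rw [k_self (by norm_num)] at f1
          norm_num at f1
          linarith
        unfold dd
        norm_num at h3 ⊢
        rw [e3]
        nlinarith
      · subst hm'
        have f4 : kap 3 b 4 = lam 3 b 1 + lam 3 b 3 := by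
          have f1 := k_add 3 b 1 (by norm_num)
          have g1 : kap 3 b 1 = lam 3 b 1 := k_of_le (by norm_num) (by norm_num)
          rw [g1] at f1
          simpa using f1
        have f6 : kap 3 b 6 = 2 * lam 3 b 3 := by
          have f1 := k_add 3 b 3 (by norm_num)
          rw [k_self (by norm_num)] at f1
          norm_num at f1
          linarith
        have f9 : kap 3 b 9 = 3 * lam 3 b 3 := by
          have f1 := k_add 3 b 6 (by norm_num)
          rw [f6] at f1
          norm_num at f1
          linarith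
        -- convexity
        have hconv := be_conv hm hb hc (i := 1) (j := 2) (k := 3) (by omega) (by omega) le_rfl
        rw [be_one hm] at hconv
        push_cast at hconv h3
        norm_num at hconv h3
        set a := c * lam 3 b 1 - 2 with hadef
        set x := c * lam 3 b 3 with hxdef
        have hbm' : be 3 b c 3 = 4 - x := by rw [hbm]; push_cast; ring
        rw [hbm'] at hconv h3 hβ
        have hx3 : 3 ≤ x := by have := hc.h2; push_cast at this; exact this
        have hcase2 : (h = 2 ∧ h' = 2) ∨ (h = 2 ∧ h' = 3) ∨ (h = 3 ∧ h' = 2) ∨ (h = 3 ∧ h' = 3) := by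
          omega
        have d22 : dd 3 b c 2 2 = x - 2 + a := by
          unfold dd; norm_num; rw [f4, hadef, hxdef]; ring
        have d23 : dd 3 b c 2 3 = 2 * x - 5 := by
          unfold dd; norm_num; rw [f6, hxdef]; ring
        have d33 : dd 3 b c 3 3 = 3 * x - 6 := by
          unfold dd; norm_num; rw [f9, hxdef]; ring
        rcases hcase2 with ⟨rfl, rfl⟩ | ⟨rfl, rfl⟩ | ⟨rfl, rfl⟩ | ⟨rfl, rfl⟩
        · rw [d22]
          have g1 : be 3 b c 2 ≤ (4 - x) / 2 := by linarith
          have g2 : be 3 b c 2 * be 3 b c 2 ≤ (4 - x) / 2 * ((4 - x) / 2) :=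
            mul_le_mul g1 g1 hu (by linarith)
          nlinarith
        · rw [d23, hbm']
          have g1 : be 3 b c 2 * (4 - x) ≤ (4 - x - a) / 2 * (4 - x) := by
            apply mul_le_mul_of_nonneg_right _ hβ.le
            linarith
          nlinarith
        · rw [dd_comm, d23, hbm']
          have g1 : (4 - x) * be 3 b c 2 ≤ (4 - x) * ((4 - x - a) / 2) := by
            apply mul_le_mul_of_nonneg_left _ hβ.le
            linarith
          nlinarith
        · rw [d33, hbm']
          nlinarith
    · -- m ≥ 4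
      have hs := subclaim hm4 hb hc
      have hb2 : be m b c 2 ≤ 0 := by
        unfold be
        rw [k_of_le hm hm2]
        push_cast
        linarith
      have hm4r : (4 : ℝ) ≤ m := by exact_mod_cast hm4
      have step : ∀ g : ℕ, 2 ≤ g → g ≤ m →
          ((m : ℝ) - 2) * be m b c g ≤ ((g : ℝ) - 2) * be m b c m := by
        intro g hg hgm
        have := be_conv hm hb hc (i := 2) (j := g) (k := m) hg hgm le_rfl
        push_cast at this
        have hgm' : (g : ℝ) ≤ m := by exact_mod_cast hgm
        nlinarith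
      have s1 := step h h2 hh
      have s2 := step h' h2' hh'
      have hhr : (2 : ℝ) ≤ h := by exact_mod_cast h2
      have hhm : (h : ℝ) ≤ m := by exact_mod_cast hh
      have hhr' : (2 : ℝ) ≤ h' := by exact_mod_cast h2'
      have hhm' : (h' : ℝ) ≤ m := by exact_mod_cast hh'
      -- lower bound for D
      have hk := k_lower hm hb hc (h * h')
      set a := c * lam m b 1 - 2 with hadef
      set x := c * lam m b m with hxdef
      set β := be m b c m with hβdef
      have hx : (m : ℝ) ≤ x := hc.h2
      have hD2 : (h : ℝ) * h' * x - m * h - m * h' ≤ m * dd m b c h h' := by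
        unfold dd
        push_cast at hk
        nlinarith
      -- (m-2)^2 (h h' x - m h - m h') ≥ (h-2)(h'-2) m (m x - 2 m)
      have hpoly : ((h : ℝ) - 2) * (h' - 2) * (m * (m * (x - 2)))
          ≤ ((m : ℝ) - 2) ^ 2 * ((h : ℝ) * h' * x - m * h - m * h') := by
        have p0 : 0 ≤ (h : ℝ) - 2 := by linarith
        have p0' : 0 ≤ (h' : ℝ) - 2 := by linarith
        have P0 : 0 ≤ (m : ℝ) - 2 := by linarith
        have q0 : 0 ≤ (m : ℝ) - h := by linarith
        have q0' : 0 ≤ (m : ℝ) - h' := by linarith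
        have r0 : 0 ≤ x - m := by linarith
        have key : ((m : ℝ) - 2) ^ 2 * ((h : ℝ) * h' * x - m * h - m * h')
            - ((h : ℝ) - 2) * (h' - 2) * (m * (m * (x - 2)))
            = (2 * x - m) * ((m : ℝ) - 2) * (((h : ℝ) - 2) * (m - h') + ((h' : ℝ) - 2) * (m - h))
              + 4 * (x - m) * ((m : ℝ) - 2) * (m - h)
              + 4 * (x - m) * ((h : ℝ) - 2) * (m - h') := by ring
        have t1 : 0 ≤ (2 * x - m) * ((m : ℝ) - 2)
            * (((h : ℝ) - 2) * (m - h') + ((h' : ℝ) - 2) * (m - h)) := by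
          apply mul_nonneg (mul_nonneg (by linarith) P0)
          exact add_nonneg (mul_nonneg p0 q0') (mul_nonneg p0' q0)
        have t2 : 0 ≤ 4 * (x - m) * ((m : ℝ) - 2) * (m - h) :=
          mul_nonneg (mul_nonneg (by linarith) P0) q0
        have t3 : 0 ≤ 4 * (x - m) * ((h : ℝ) - 2) * (m - h') :=
          mul_nonneg (mul_nonneg (by linarith) p0) q0'
        linarith
      -- conclude
      have P0 : 0 < (m : ℝ) - 2 := by linarith
      have m0 : (0 : ℝ) < m := by linarith
      have hprod : (((m : ℝ) - 2) * be m b c h) * (((m : ℝ) - 2) * be m b c h')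
          ≤ (((h : ℝ) - 2) * β) * (((h' : ℝ) - 2) * β) := by
        apply mul_le_mul s1 s2 (mul_nonneg P0.le hv)
        exact mul_nonneg (by linarith) hβ.le
      have hfin : m * (((m : ℝ) - 2) ^ 2 * (be m b c h * be m b c h'))
          ≤ m * (((m : ℝ) - 2) ^ 2 * (a * dd m b c h h')) := by
        calc (m : ℝ) * (((m : ℝ) - 2) ^ 2 * (be m b c h * be m b c h'))
            = m * ((((m : ℝ) - 2) * be m b c h) * (((m : ℝ) - 2) * be m b c h')) := by ring
          _ ≤ m * ((((h : ℝ) - 2) * β) * (((h' : ℝ) - 2) * β)) :=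
              mul_le_mul_of_nonneg_left hprod m0.le
          _ = m * (((h : ℝ) - 2) * (h' - 2)) * β ^ 2 := by ring
          _ ≤ m * (((h : ℝ) - 2) * (h' - 2)) * (a * (m * (x - 2))) := by
              apply mul_le_mul_of_nonneg_left h3
              apply mul_nonneg m0.le (mul_nonneg (by linarith) (by linarith))
          _ = a * (((h : ℝ) - 2) * (h' - 2) * (m * (m * (x - 2)))) := by ring
          _ ≤ a * (((m : ℝ) - 2) ^ 2 * ((h : ℝ) * h' * x - m * h - m * h')) :=
              mul_le_mul_of_nonneg_left hpoly ha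
          _ ≤ a * (((m : ℝ) - 2) ^ 2 * (m * dd m b c h h')) := by
              apply mul_le_mul_of_nonneg_left _ ha
              apply mul_le_mul_of_nonneg_left hD2 (by positivity)
          _ = m * (((m : ℝ) - 2) ^ 2 * (a * dd m b c h h')) := by ring
      have h9 := le_of_mul_le_mul_left hfin m0
      exact le_of_mul_le_mul_left h9 (by positivity)

/-- The pairwise inequality. -/
theorem key (hm : 1 ≤ m) (hb : 1 ≤ b) (hc : Cond m b c) :
    ∀ n h h' : ℕ, h + h' = n → 2 ≤ h → 2 ≤ h' →
    max 0 (be m b c h) * max 0 (be m b c h') ≤ (c * lam m b 1 - 2) * dd m b c h h' := by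
  have ha : 0 ≤ c * lam m b 1 - 2 := by linarith [hc.h1]
  have hx : (m : ℝ) ≤ c * lam m b m := hc.h2
  -- the reduction step in the first argument
  have red : ∀ h h' : ℕ, 2 ≤ h → 2 ≤ h' → m < h →
      (2 ≤ h - m → max 0 (be m b c (h - m)) * max 0 (be m b c h')
        ≤ (c * lam m b 1 - 2) * dd m b c (h - m) h') →
      max 0 (be m b c h) * max 0 (be m b c h') ≤ (c * lam m b 1 - 2) * dd m b c h h' := by
    intro h h' h2 h2' hmh ih
    have hD := dd_nonneg hm hb hc h2 h2'
    have e : h = (h - m) + m := by omega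
    have hbe : be m b c h = be m b c (h - m) + (m - c * lam m b m) := by
      conv_lhs => rw [e]
      exact be_add hm _
    rcases Nat.lt_or_ge (h - m) 2 with hlt | hge
    · have h1 : h - m = 1 := by omega
      rw [h1, be_one hm] at hbe
      have h0 : be m b c h ≤ 0 := by linarith
      rw [max_eq_left h0, zero_mul]
      exact mul_nonneg ha hD
    · have hdd : dd m b c h h' = dd m b c (h - m) h' + (h' * (c * lam m b m) - m) := by
        conv_lhs => rw [e]
        exact dd_add hm _ _
      have h5 : (2 : ℝ) ≤ h' := by exact_mod_cast h2'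
      have h6 : 0 ≤ (h' : ℝ) * (c * lam m b m) - m := by
        have hm0 : (0 : ℝ) ≤ m := by positivity
        nlinarith
      calc max 0 (be m b c h) * max 0 (be m b c h')
          ≤ max 0 (be m b c (h - m)) * max 0 (be m b c h') := by
            apply mul_le_mul_of_nonneg_right _ (le_max_left _ _)
            apply max_le_max le_rfl
            linarith
        _ ≤ (c * lam m b 1 - 2) * dd m b c (h - m) h' := ih hge
        _ ≤ _ := by
            apply mul_le_mul_of_nonneg_left _ ha
            linarith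
  intro n
  induction n using Nat.strong_induction_on with
  | _ n IH =>
    intro h h' hn h2 h2'
    rcases Nat.lt_or_ge m h with h3 | h3
    · apply red h h' h2 h2' h3
      intro h4
      exact IH (h - m + h') (by omega) _ _ rfl h4 h2'
    · rcases Nat.lt_or_ge m h' with h3' | h3'
      · rw [mul_comm, dd_comm]
        apply red h' h h2' h2 h3'
        intro h4
        exact IH (h' - m + h) (by omega) _ _ rfl h4 h2
      · exact key_small hm hb hc h2 h2' h3 h3'

end

end Pool.Agent.Helper34.GC
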