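import Mathlib
import Pool.Agent.Helper34.GC.Key
import Pool.Agent.Helper34.GC.CondCst

/-!
# The biased clique game: the static inequality (ST)
-/

set_option autoImplicit false

namespace Pool.Agent.Helper34.GC

open Finset Pool.Agent.Helper5.CV

variable {m b : ℕ} {c : ℝ}

/-- The static inequality for every `c` with the three conditions. -/
theorem ST_cond (hm : 1 ≤ m) (hb : 1 ≤ b) (hc : Cond m b c) {ι : Type*} (s : Finset ι)
    (g : ι → ℕ) (hg : ∀ i ∈ s, 1 ≤ g i) :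
    2 * (s.card : ℝ) * (∑ i ∈ s, (g i : ℝ)) ≤ c * ∑ i ∈ s, ∑ j ∈ s, kap m b (g i * g j) := by
  classical
  set a := c * lam m b 1 - 2 with hadef
  have ha : 0 ≤ a := by linarith [hc.h1]
  -- split into the singles and the others
  set s1 := s.filter (fun i => g i = 1) with hs1
  set s2 := s.filter (fun i => ¬ g i = 1) with hs2
  have hg2 : ∀ i ∈ s2, 2 ≤ g i := by
    intro i hi
    have h1 := (mem_filter.1 hi).2
    have h2 := hg i (mem_filter.1 hi).1
    omega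
  -- it is enough to show that the sum of `dd` is nonnegative
  have hsum : ∑ i ∈ s, ∑ j ∈ s, dd m b c (g i) (g j)
      = c * ∑ i ∈ s, ∑ j ∈ s, kap m b (g i * g j) - 2 * (s.card : ℝ) * (∑ i ∈ s, (g i : ℝ)) := by
    unfold dd
    simp only [sum_sub_distrib, sum_const, nsmul_eq_mul, ← mul_sum]
    ring
  suffices h : 0 ≤ ∑ i ∈ s, ∑ j ∈ s, dd m b c (g i) (g j) by linarith
  -- the four blocks
  have split : ∀ f : ι → ℝ, ∑ i ∈ s, f i = ∑ i ∈ s1, f i + ∑ i ∈ s2, f i := by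
    intro f
    rw [hs1, hs2]
    exact (sum_filter_add_sum_filter_not s _ _).symm
  set B : ι → ℝ := fun i => max 0 (be m b c (g i)) with hBdef
  set k : ℝ := (s1.card : ℝ) with hk
  have d11 : ∀ i ∈ s1, ∀ j ∈ s1, dd m b c (g i) (g j) = a := by
    intro i hi j hj
    rw [(mem_filter.1 hi).2, (mem_filter.1 hj).2]
    unfold dd
    rw [one_mul, k_of_le hm hm, hadef]
    push_cast
    ring
  have d12 : ∀ i ∈ s1, ∀ j ∈ s2, -(B j) ≤ dd m b c (g i) (g j) := by
    intro i hi j _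
    rw [(mem_filter.1 hi).2]
    have h1 : dd m b c 1 (g j) = -(be m b c (g j)) := by
      unfold dd be
      rw [one_mul]
      push_cast
      ring
    rw [h1]
    have := le_max_right 0 (be m b c (g j))
    linarith
  have d21 : ∀ i ∈ s2, ∀ j ∈ s1, -(B i) ≤ dd m b c (g i) (g j) := by
    intro i hi j hj
    rw [dd_comm]
    exact d12 j hj i hi
  have d22 : ∀ i ∈ s2, ∀ j ∈ s2, B i * B j ≤ a * dd m b c (g i) (g j) := by
    intro i hi j hj
    exact key hm hb hc _ _ _ rfl (hg2 i hi) (hg2 j hj)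
  have d22' : ∀ i ∈ s2, ∀ j ∈ s2, 0 ≤ dd m b c (g i) (g j) := by
    intro i hi j hj
    exact dd_nonneg hm hb hc (hg2 i hi) (hg2 j hj)
  set S := ∑ i ∈ s2, B i with hS
  have hB0 : ∀ i, 0 ≤ B i := fun i => le_max_left _ _
  have hS0 : 0 ≤ S := sum_nonneg (fun i _ => hB0 i)
  have s11 : ∑ i ∈ s1, ∑ j ∈ s1, dd m b c (g i) (g j) = k * k * a := by
    rw [sum_congr rfl (fun i hi => sum_congr rfl (d11 i hi))]
    simp only [sum_const, nsmul_eq_mul]
    rw [hk]; ring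
  have s12 : -(k * S) ≤ ∑ i ∈ s1, ∑ j ∈ s2, dd m b c (g i) (g j) := by
    calc -(k * S) = ∑ i ∈ s1, ∑ j ∈ s2, -(B j) := by
          simp only [sum_neg_distrib, sum_const, nsmul_eq_mul]
          rfl
      _ ≤ _ := sum_le_sum (fun i hi => sum_le_sum (fun j hj => d12 i hi j hj))
  have s21 : -(k * S) ≤ ∑ i ∈ s2, ∑ j ∈ s1, dd m b c (g i) (g j) := by
    calc -(k * S) = ∑ i ∈ s2, ∑ j ∈ s1, -(B i) := by
          simp only [sum_neg_distrib, sum_const, nsmul_eq_mul, ← mul_sum]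
          rfl
      _ ≤ _ := sum_le_sum (fun i hi => sum_le_sum (fun j hj => d21 i hi j hj))
  have s22 : S * S ≤ a * ∑ i ∈ s2, ∑ j ∈ s2, dd m b c (g i) (g j) := by
    rw [hS, sum_mul_sum, mul_sum]
    apply sum_le_sum
    intro i hi
    rw [mul_sum]
    exact sum_le_sum (fun j hj => d22 i hi j hj)
  have s22' : 0 ≤ ∑ i ∈ s2, ∑ j ∈ s2, dd m b c (g i) (g j) :=
    sum_nonneg (fun i hi => sum_nonneg (fun j hj => d22' i hi j hj))
  have htot : ∑ i ∈ s, ∑ j ∈ s, dd m b c (g i) (g j)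
      = ∑ i ∈ s1, ∑ j ∈ s1, dd m b c (g i) (g j) + ∑ i ∈ s1, ∑ j ∈ s2, dd m b c (g i) (g j)
        + (∑ i ∈ s2, ∑ j ∈ s1, dd m b c (g i) (g j) + ∑ i ∈ s2, ∑ j ∈ s2, dd m b c (g i) (g j)) := by
    rw [split]
    rw [sum_congr rfl (fun i _ => split (fun j => dd m b c (g i) (g j))), sum_add_distrib]
    congr 1
    rw [sum_congr rfl (fun i _ => split (fun j => dd m b c (g i) (g j))), sum_add_distrib]
  set T := ∑ i ∈ s2, ∑ j ∈ s2, dd m b c (g i) (g j) with hT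
  have hk0 : 0 ≤ k := by positivity
  have hlow : k * k * a - 2 * (k * S) + T ≤ ∑ i ∈ s, ∑ j ∈ s, dd m b c (g i) (g j) := by
    rw [htot, s11]
    linarith
  refine le_trans ?_ hlow
  rcases ha.lt_or_eq with ha' | ha'
  · -- a > 0
    have h1 : 0 ≤ a * (k * k * a - 2 * (k * S) + T) := by
      nlinarith [sq_nonneg (k * a - S)]
    exact nonneg_of_mul_nonneg_right h1 ha'
  · -- a = 0
    rw [← ha', zero_mul] at s22
    have h1 : S = 0 := by nlinarith
    rw [h1, ← ha']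
    simp only [mul_zero, zero_add, sub_zero]
    exact s22'

/-- (ST): the static inequality for the constant `c*`. -/
theorem ST (hm : 1 ≤ m) (hb : 1 ≤ b) {ι : Type*} (s : Finset ι) (g : ι → ℕ)
    (hg : ∀ i ∈ s, 1 ≤ g i) :
    2 * (s.card : ℝ) * (∑ i ∈ s, (g i : ℝ))
      ≤ cst m b * ∑ i ∈ s, ∑ j ∈ s, kap m b (g i * g j) :=
  ST_cond hm hb (cond_cst hm hb) s g hg

theorem div_le_cst (m b : ℕ) : (m : ℝ) / lam m b m ≤ cst m b := le_max_left _ _

theorem cst_pos (hm : 1 ≤ m) (hb : 1 ≤ b) : 0 < cst m b := (cond_cst hm hb).pos hm hb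

/-- `c* μ ≥ 1`. -/
theorem one_le_cst_mul_mu (hm : 1 ≤ m) (hb : 1 ≤ b) : 1 ≤ cst m b * mu m b := by
  have h := (cond_cst hm hb).h2
  have hm0 : (0 : ℝ) < m := by exact_mod_cast hm
  unfold mu
  rw [← mul_div_assoc, le_div_iff₀ hm0]
  linarith

/-- `2 / Λ_1 ≤ c*`. -/
theorem two_le_cst_mul (hm : 1 ≤ m) (hb : 1 ≤ b) : 2 ≤ cst m b * lam m b 1 := (cond_cst hm hb).h1

end Pool.Agent.Helper34.GC
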