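import Mathlib
import Pool.Agent.Helper34.GC.ST

/-!
# The biased clique game: `c*` is the least constant with the three conditions; monotonicity

`low m b = max (2 / Λ_1) (m / Λ_m)` is the proved lower bound.  Results:
* `cst_anti : cst m (b+1) < cst m b`,
* `cst_lt_low_succ : cst m b < low (m+1) b` (the right inequality),
* `cst_mono : cst m b < cst (m+1) b`.
-/

set_option autoImplicit false

namespace Pool.Agent.Helper34.GC

open Pool.Agent.Helper5.CV

/-- The lower bound `max (2 / Λ_1) (m / Λ_m)`. -/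
noncomputable def low (m b : ℕ) : ℝ := max (2 / lam m b 1) ((m : ℝ) / lam m b m)

/-- The strict version of the three conditions. -/
structure SCond (m b : ℕ) (c : ℝ) : Prop where
  h1 : 2 < c * lam m b 1
  h2 : (m : ℝ) < c * lam m b m
  h3 : (m : ℝ) + 1 ≤ c * lam m b m ∨
    ((m : ℝ) + 1 - c * lam m b m) ^ 2 < (c * lam m b 1 - 2) * (m * (c * lam m b m - 2))

/-- If `S* ≤ Q*` then `Q* Λ_m ≤ m + 1`. -/
lemma Qst_le {m b : ℕ} (hm : 2 ≤ m) (hb : 1 ≤ b) (h : Sst m b ≤ Qst m b) :
    Qst m b * lam m b m ≤ m + 1 := by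
  obtain ⟨h2, h3⟩ := Qst_eq hm hb
  have hΛ : 0 < lam m b m := L_pos (by omega) hb (by omega)
  have hK : 0 < Kc m b := K_pos hm hb
  have h1 : (2 : ℝ) ≤ m := by exact_mod_cast hm
  have hS : Sst m b * Kc m b = (m : ℝ) - 1 := by
    unfold Sst
    field_simp
  set Q := Qst m b with hQ
  set S := Sst m b with hSd
  have e1 : Q * lam m b m * (Q * lam m b m - 2) = ((m : ℝ) - 1) * (S * lam m b m) := by
    have : (Q * lam m b m * (Q * lam m b m - 2) - ((m : ℝ) - 1) * (S * lam m b m)) * Kc m b = 0 := by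
      calc (Q * lam m b m * (Q * lam m b m - 2) - ((m : ℝ) - 1) * (S * lam m b m)) * Kc m b
          = Q * lam m b m * (Q * lam m b m - 2) * Kc m b
            - ((m : ℝ) - 1) * (S * Kc m b) * lam m b m := by ring
        _ = ((m : ℝ) - 1) ^ 2 * lam m b m - ((m : ℝ) - 1) * ((m : ℝ) - 1) * lam m b m := by
            rw [h3, hS]
        _ = 0 := by ring
    rcases mul_eq_zero.1 this with h | h
    · linarith
    · exact absurd h hK.ne'
  have h4 : S * lam m b m ≤ Q * lam m b m := mul_le_mul_of_nonneg_right h hΛ.le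
  set x := Q * lam m b m with hx
  -- x (x - 2) ≤ (m - 1) x
  have h5 : x * (x - 2) ≤ ((m : ℝ) - 1) * x := by
    rw [e1]
    exact mul_le_mul_of_nonneg_left h4 (by linarith)
  by_contra hcon
  push Not at hcon
  nlinarith

/-- `c*` is the least constant with the three conditions. -/
theorem cst_le {m b : ℕ} {c : ℝ} (hm : 1 ≤ m) (hb : 1 ≤ b) (hc : Cond m b c) : cst m b ≤ c := by
  have hΛ : 0 < lam m b m := L_pos (by omega) hb (by omega)
  have hΛ1 : 0 < lam m b 1 := L_pos (by omega) hb (by omega)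
  have hc0 := hc.pos hm hb
  unfold cst
  apply max_le
  · rw [div_le_iff₀ hΛ]; exact hc.h2
  · by_cases hSQ : Sst m b ≤ Qst m b
    · rw [if_pos hSQ]
      rcases Nat.eq_or_lt_of_le hm with hm1 | hm2
      · subst hm1
        rw [Qst_one, div_le_iff₀ hΛ1]
        exact hc.h1
      · have hm2' : 2 ≤ m := hm2
        have h5 := Qst_le hm2' hb hSQ
        obtain ⟨h2, h3⟩ := Qst_eq hm2' hb
        have h4 := Qst_eq2 hm2' hb
        by_contra hcon
        push Not at hcon
        have h1r : (2 : ℝ) ≤ m := by exact_mod_cast hm2'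
        have g1 : c * lam m b 1 < Qst m b * lam m b 1 := mul_lt_mul_of_pos_right hcon hΛ1
        have g2 : c * lam m b m < Qst m b * lam m b m := mul_lt_mul_of_pos_right hcon hΛ
        rcases hc.h3 with h6 | h6
        · linarith
        · have h7 : ((m : ℝ) + 1 - Qst m b * lam m b m) ^ 2 < ((m : ℝ) + 1 - c * lam m b m) ^ 2 := by
            apply pow_lt_pow_left₀ (by linarith) (by linarith) (by norm_num)
          have h8 : (c * lam m b 1 - 2) * (m * (c * lam m b m - 2))
              ≤ (Qst m b * lam m b 1 - 2) * (m * (Qst m b * lam m b m - 2)) := by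
            apply mul_le_mul (by linarith) _ _ (by linarith [hc.h1])
            · apply mul_le_mul_of_nonneg_left (by linarith) (by linarith)
            · apply mul_nonneg (by linarith)
              linarith [hc.h2]
          linarith
    · rw [if_neg hSQ, div_le_iff₀ hΛ1]
      exact hc.h1

lemma SCond.toCond {m b : ℕ} {c : ℝ} (hc : SCond m b c) : Cond m b c :=
  ⟨hc.h1.le, hc.h2.le, hc.h3.imp id (fun h => h.le)⟩

/-- A constant with the strict conditions is larger than `c*`. -/
theorem cst_lt {m b : ℕ} {c : ℝ} (hm : 1 ≤ m) (hb : 1 ≤ b) (hc : SCond m b c) : cst m b < c := by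
  have hΛ : 0 < lam m b m := L_pos (by omega) hb (by omega)
  have hΛ1 : 0 < lam m b 1 := L_pos (by omega) hb (by omega)
  rcases (cst_le hm hb hc.toCond).lt_or_eq with h | h
  · exact h
  · exfalso
    have h0 := h
    unfold cst at h0
    rcases max_choice ((m : ℝ) / lam m b m)
      (if Sst m b ≤ Qst m b then Qst m b else 2 / lam m b 1) with h1 | h1
    · rw [h1] at h0
      have := hc.h2
      rw [← h0, div_mul_cancel₀ _ hΛ.ne'] at this
      exact lt_irrefl _ this
    · rw [h1] at h0
      by_cases hSQ : Sst m b ≤ Qst m b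
      · rw [if_pos hSQ] at h0
        rcases Nat.eq_or_lt_of_le hm with hm1 | hm2
        · subst hm1
          rw [Qst_one] at h0
          have := hc.h1
          rw [← h0, div_mul_cancel₀ _ hΛ1.ne'] at this
          exact lt_irrefl _ this
        · have hm2' : 2 ≤ m := hm2
          have h5 := Qst_le hm2' hb hSQ
          obtain ⟨h2, h3⟩ := Qst_eq hm2' hb
          have h4 := Qst_eq2 hm2' hb
          have h1r : (2 : ℝ) ≤ m := by exact_mod_cast hm2'
          rw [h0] at h4 h5
          rcases hc.h3 with h6 | h6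
          · have h7 : c * lam m b m = m + 1 := le_antisymm h5 h6
            rw [h7] at h4
            have h8 : (c * lam m b 1 - 2) * (m * ((m : ℝ) + 1 - 2)) = 0 := by
              rw [h4]; ring
            have h9 : 0 < (c * lam m b 1 - 2) * (m * ((m : ℝ) + 1 - 2)) := by
              apply mul_pos (by linarith [hc.h1])
              apply mul_pos (by linarith) (by linarith)
            linarith
          · linarith
      · rw [if_neg hSQ] at h0
        have := hc.h1
        rw [← h0, div_mul_cancel₀ _ hΛ1.ne'] at this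
        exact lt_irrefl _ this

lemma L_lt_succ {m b j : ℕ} (hm : 1 ≤ m) (hj : 1 ≤ j) : lam m b j < lam m (b + 1) j := by
  have hm0 : (0 : ℝ) < m := by exact_mod_cast hm
  have hj0 : (0 : ℝ) < j := by exact_mod_cast hj
  unfold lam
  apply Real.log_lt_log (arg_pos m b j)
  have : (b : ℝ) * j / m < ((b + 1 : ℕ) : ℝ) * j / m := by
    push_cast
    gcongr
    linarith
  linarith

/-- The conditions for `b` imply the strict conditions for `b + 1`. -/
theorem Cond.succ {m b : ℕ} {c : ℝ} (hm : 1 ≤ m) (hb : 1 ≤ b) (hc : Cond m b c) :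
    SCond m (b + 1) c := by
  have hc0 := hc.pos hm hb
  have g1 : c * lam m b 1 < c * lam m (b + 1) 1 :=
    mul_lt_mul_of_pos_left (L_lt_succ hm le_rfl) hc0
  have g2 : c * lam m b m < c * lam m (b + 1) m :=
    mul_lt_mul_of_pos_left (L_lt_succ hm hm) hc0
  have hmr : (1 : ℝ) ≤ m := by exact_mod_cast hm
  refine ⟨lt_of_le_of_lt hc.h1 g1, lt_of_le_of_lt hc.h2 g2, ?_⟩
  by_cases h : (m : ℝ) + 1 ≤ c * lam m (b + 1) m
  · exact Or.inl h
  · push Not at h
    right
    rcases hc.h3 with h3 | h3
    · linarith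
    · -- for m = 1 the right side is nonnegative only if x ≥ 2
      have h4 : ((m : ℝ) + 1 - c * lam m (b + 1) m) ^ 2 < ((m : ℝ) + 1 - c * lam m b m) ^ 2 := by
        apply pow_lt_pow_left₀ (by linarith) (by linarith) (by norm_num)
      have h5 : 0 ≤ c * lam m b m - 2 := by
        rcases Nat.eq_or_lt_of_le hm with hm1 | hm2
        · subst hm1
          linarith [hc.h1]
        · have : (2 : ℝ) ≤ m := by exact_mod_cast hm2
          linarith [hc.h2]
      have h6 : (c * lam m b 1 - 2) * (m * (c * lam m b m - 2))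
          ≤ (c * lam m (b + 1) 1 - 2) * (m * (c * lam m (b + 1) m - 2)) := by
        apply mul_le_mul (by linarith) _ (mul_nonneg (by linarith) h5) (by linarith [hc.h1])
        apply mul_le_mul_of_nonneg_left (by linarith) (by linarith)
      linarith

/-- `c*` is strictly decreasing in `b`. -/
theorem cst_anti {m b : ℕ} (hm : 1 ≤ m) (hb : 1 ≤ b) : cst m (b + 1) < cst m b :=
  cst_lt hm (by omega) ((cond_cst hm hb).succ hm hb)

lemma L1_succ_lt {m b : ℕ} (hm : 1 ≤ m) (hb : 1 ≤ b) : lam (m + 1) b 1 < lam m b 1 := by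
  have hm0 : (0 : ℝ) < m := by exact_mod_cast hm
  have hb0 : (0 : ℝ) < b := by exact_mod_cast hb
  unfold lam
  apply Real.log_lt_log (arg_pos (m + 1) b 1)
  have : (b : ℝ) * (1 : ℕ) / ((m + 1 : ℕ) : ℝ) < (b : ℝ) * (1 : ℕ) / m := by
    push_cast
    gcongr
    linarith
  linarith

/-- The right inequality: `c*(m,b) < low (m+1,b)`. -/
theorem cst_lt_low_succ {m b : ℕ} (hm : 1 ≤ m) (hb : 1 ≤ b) : cst m b < low (m + 1) b := by
  have hΛ1 : 0 < lam (m + 1) b 1 := L_pos (by omega) hb (by omega)
  have hΛ : 0 < lam (m + 1) b (m + 1) := L_pos (by omega) hb (by omega)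
  have he : lam (m + 1) b (m + 1) = lam m b m := by
    rw [L_self (by omega), L_self hm]
  have c1 : 2 ≤ low (m + 1) b * lam (m + 1) b 1 := by
    rw [← div_le_iff₀ hΛ1]; exact le_max_left _ _
  have c2 : ((m + 1 : ℕ) : ℝ) ≤ low (m + 1) b * lam (m + 1) b (m + 1) := by
    rw [← div_le_iff₀ hΛ]; exact le_max_right _ _
  have c0 : 0 < low (m + 1) b := by
    by_contra hcon
    push Not at hcon
    have := mul_nonpos_of_nonpos_of_nonneg hcon hΛ1.le
    linarith
  rw [he] at c2
  push_cast at c2
  apply cst_lt hm hb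
  refine ⟨lt_of_le_of_lt c1 (mul_lt_mul_of_pos_left (L1_succ_lt hm hb) c0), by linarith,
    Or.inl c2⟩

/-- `low ≤ c*`. -/
theorem low_le_cst {m b : ℕ} (hm : 1 ≤ m) (hb : 1 ≤ b) : low m b ≤ cst m b := by
  have hΛ : 0 < lam m b m := L_pos (by omega) hb (by omega)
  have hΛ1 : 0 < lam m b 1 := L_pos (by omega) hb (by omega)
  have h := cond_cst hm hb
  apply max_le
  · rw [div_le_iff₀ hΛ1]; exact h.h1
  · rw [div_le_iff₀ hΛ]; exact h.h2

/-- `c*` is strictly increasing in `m`. -/
theorem cst_mono {m b : ℕ} (hm : 1 ≤ m) (hb : 1 ≤ b) : cst m b < cst (m + 1) b :=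
  lt_of_lt_of_le (cst_lt_low_succ hm hb) (low_le_cst (by omega) hb)

end Pool.Agent.Helper34.GC
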