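import Mathlib
import Pool.Agent.Helper34.GC.Cmp

/-!
# The biased clique game: the numbers `S*`, `l* = (Q* - S*) / m` and the corner lemma
-/

set_option autoImplicit false

namespace Pool.Agent.Helper34.GC

open Pool.Agent.Helper5.CV

/-- `l* = (Q* - S*) / m`. -/
noncomputable def lst (m b : ℕ) : ℝ := (Qst m b - Sst m b) / m

variable {m b : ℕ}

lemma Sst_mul (hm : 2 ≤ m) (hb : 1 ≤ b) : Sst m b * Kc m b = (m : ℝ) - 1 := by
  have hK : 0 < Kc m b := K_pos hm hb
  unfold Sst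
  field_simp

lemma Sst_pos (hm : 2 ≤ m) (hb : 1 ≤ b) : 0 < Sst m b := by
  have hK : 0 < Kc m b := K_pos hm hb
  have h1 : (2 : ℝ) ≤ m := by exact_mod_cast hm
  unfold Sst
  apply div_pos (by linarith) hK

/-- `Q (Q Λ - 2) = (m - 1) S`. -/
lemma Q_rel (hm : 2 ≤ m) (hb : 1 ≤ b) :
    Qst m b * (Qst m b * lam m b m - 2) = ((m : ℝ) - 1) * Sst m b := by
  obtain ⟨h2, h3⟩ := Qst_eq hm hb
  have hΛ : 0 < lam m b m := L_pos (by omega) hb (by omega)
  have hK : 0 < Kc m b := K_pos hm hb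
  have hS := Sst_mul hm hb
  have : (Qst m b * (Qst m b * lam m b m - 2) - ((m : ℝ) - 1) * Sst m b)
      * (lam m b m * Kc m b) = 0 := by
    calc (Qst m b * (Qst m b * lam m b m - 2) - ((m : ℝ) - 1) * Sst m b)
          * (lam m b m * Kc m b)
        = Qst m b * lam m b m * (Qst m b * lam m b m - 2) * Kc m b
          - ((m : ℝ) - 1) * (Sst m b * Kc m b) * lam m b m := by ring
      _ = ((m : ℝ) - 1) ^ 2 * lam m b m - ((m : ℝ) - 1) * ((m : ℝ) - 1) * lam m b m := by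
          rw [h3, hS]
      _ = 0 := by ring
  rcases mul_eq_zero.1 this with h | h
  · linarith
  · exact absurd h (mul_pos hΛ hK).ne'

lemma m_mul_lst (hm : 1 ≤ m) : (m : ℝ) * lst m b = Qst m b - Sst m b := by
  have hm0 : (0 : ℝ) < m := by exact_mod_cast hm
  unfold lst
  field_simp

lemma lst_nonneg (h : Sst m b ≤ Qst m b) : 0 ≤ lst m b := by
  unfold lst
  exact div_nonneg (by linarith) (by positivity)

/-- `S*² Λ_1 + 2 S* l* Λ_m + l*² m Λ_m = 2 (S* + l*)`. -/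
lemma star_eq (hm : 2 ≤ m) (hb : 1 ≤ b) :
    Sst m b ^ 2 * lam m b 1 + 2 * Sst m b * lst m b * lam m b m
      + lst m b ^ 2 * (m * lam m b m) = 2 * (Sst m b + lst m b) := by
  have hm0 : (0 : ℝ) < m := by
    have : 0 < m := by omega
    exact_mod_cast this
  have hl := m_mul_lst (m := m) (b := b) (by omega)
  have hQ := Q_rel hm hb
  have hS := Sst_mul hm hb
  have hK : (m : ℝ) * lam m b 1 = Kc m b + lam m b m := by unfold Kc; ring
  set S := Sst m b
  set Q := Qst m b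
  set l := lst m b
  set Λ := lam m b m
  have key : (m : ℝ) * (S ^ 2 * lam m b 1 + 2 * S * l * Λ + l ^ 2 * (m * Λ))
      = m * (2 * (S + l)) := by
    calc (m : ℝ) * (S ^ 2 * lam m b 1 + 2 * S * l * Λ + l ^ 2 * (m * Λ))
        = S ^ 2 * (m * lam m b 1) + 2 * S * (m * l) * Λ + (m * l) ^ 2 * Λ := by ring
      _ = S ^ 2 * (Kc m b + Λ) + 2 * S * (Q - S) * Λ + (Q - S) ^ 2 * Λ := by rw [hK, hl]
      _ = S * (S * Kc m b) + Q * (Q * Λ - 2) + 2 * Q := by ring
      _ = S * ((m : ℝ) - 1) + ((m : ℝ) - 1) * S + 2 * Q := by rw [hS, hQ]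
      _ = 2 * (m * S) + 2 * (Q - S) := by ring
      _ = 2 * (m * S) + 2 * (m * l) := by rw [hl]
      _ = _ := by ring
  exact mul_left_cancel₀ hm0.ne' key

/-- `S* Λ_1 ≤ 2`. -/
lemma Sst_le (hm : 2 ≤ m) (hb : 1 ≤ b) (h : Sst m b ≤ Qst m b) :
    Sst m b * lam m b 1 ≤ 2 := by
  have hm0 : (0 : ℝ) < m := by
    have : 0 < m := by omega
    exact_mod_cast this
  have hΛ : 0 < lam m b m := L_pos (by omega) hb (by omega)
  have hS := Sst_mul hm hb
  have hQ := Qst_le hm hb h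
  have hK : (m : ℝ) * lam m b 1 = Kc m b + lam m b m := by unfold Kc; ring
  have h1 : Sst m b * lam m b m ≤ Qst m b * lam m b m := mul_le_mul_of_nonneg_right h hΛ.le
  have h2 : (m : ℝ) * (Sst m b * lam m b 1) ≤ m * 2 := by
    calc (m : ℝ) * (Sst m b * lam m b 1) = Sst m b * (m * lam m b 1) := by ring
      _ = Sst m b * Kc m b + Sst m b * lam m b m := by rw [hK]; ring
      _ ≤ m * 2 := by rw [hS]; linarith
  exact le_of_mul_le_mul_left h2 hm0

/-- `l* m Λ_m ≤ 2`. -/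
lemma lst_le (hm : 2 ≤ m) (hb : 1 ≤ b) (h : (m : ℝ) / lam m b m ≤ Qst m b) :
    lst m b * (m * lam m b m) ≤ 2 := by
  have h1 : (2 : ℝ) ≤ m := by exact_mod_cast hm
  have hΛ : 0 < lam m b m := L_pos (by omega) hb (by omega)
  have hl := m_mul_lst (m := m) (b := b) (by omega)
  have hQ := Q_rel hm hb
  obtain ⟨h2, _⟩ := Qst_eq hm hb
  rw [div_le_iff₀ hΛ] at h
  have e : lst m b * (m * lam m b m) = Qst m b * lam m b m - Sst m b * lam m b m := by
    calc lst m b * (m * lam m b m) = (m * lst m b) * lam m b m := by ring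
      _ = _ := by rw [hl]; ring
  rw [e]
  have hx : Qst m b * lam m b m * (Qst m b * lam m b m - 2)
      = ((m : ℝ) - 1) * (Sst m b * lam m b m) := by
    calc Qst m b * lam m b m * (Qst m b * lam m b m - 2)
        = (Qst m b * (Qst m b * lam m b m - 2)) * lam m b m := by ring
      _ = _ := by rw [hQ]; ring
  set x := Qst m b * lam m b m with hxd
  set D := Sst m b * lam m b m with hD
  by_contra hcon
  push Not at hcon
  -- D < x - 2, (m-1) D < (m-1)(x-2) ≤ x (x-2)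
  have h5 : ((m : ℝ) - 1) * D < ((m : ℝ) - 1) * (x - 2) :=
    mul_lt_mul_of_pos_left (by linarith) (by linarith)
  have h6 : ((m : ℝ) - 1) * (x - 2) ≤ x * (x - 2) :=
    mul_le_mul_of_nonneg_right (by linarith) (by linarith)
  linarith

/-- The corner lemma. -/
lemma corner (hm : 2 ≤ m) (hb : 1 ≤ b) (h : Sst m b ≤ Qst m b)
    (h' : (m : ℝ) / lam m b m ≤ Qst m b) {J T : ℝ} (hJ0 : 0 ≤ J) (hJ : J ≤ lst m b)
    (hT0 : 0 ≤ T) (hT : T ≤ Sst m b) :
    m * lam m b m * J ^ 2 / 2 + J * T * lam m b m + T ^ 2 * lam m b 1 / 2 ≤ J + T := by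
  have hΛ : 0 < lam m b m := L_pos (by omega) hb (by omega)
  have hΛ1 : 0 < lam m b 1 := L_pos (by omega) hb (by omega)
  have hm0 : (0 : ℝ) < m := by
    have : 0 < m := by omega
    exact_mod_cast this
  have hS0 := Sst_pos hm hb
  have e1 := star_eq hm hb
  have e2 := Sst_le hm hb h
  have e3 := lst_le hm hb h'
  set S := Sst m b
  set l := lst m b
  set Λ := lam m b m
  set Λ1 := lam m b 1
  have hl0 : 0 ≤ l := hJ0.trans hJ
  -- the end `J = 0`
  have f0 : T ^ 2 * Λ1 / 2 - T ≤ 0 := by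
    have : T * Λ1 ≤ 2 := (mul_le_mul_of_nonneg_right hT hΛ1.le).trans e2
    nlinarith
  -- the end `J = l`
  have g0 : m * Λ * l ^ 2 / 2 - l ≤ 0 := by nlinarith
  have gS : m * Λ * l ^ 2 / 2 + l * S * Λ + S ^ 2 * Λ1 / 2 - l - S = 0 := by nlinarith
  have fl : m * Λ * l ^ 2 / 2 + l * T * Λ + T ^ 2 * Λ1 / 2 - l - T ≤ 0 := by
    have key : S * (m * Λ * l ^ 2 / 2 + l * T * Λ + T ^ 2 * Λ1 / 2 - l - T)
        = (S - T) * (m * Λ * l ^ 2 / 2 - l)
          + T * (m * Λ * l ^ 2 / 2 + l * S * Λ + S ^ 2 * Λ1 / 2 - l - S)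
          - Λ1 / 2 * (S * T * (S - T)) := by ring
    have h1 : (S - T) * (m * Λ * l ^ 2 / 2 - l) ≤ 0 :=
      mul_nonpos_of_nonneg_of_nonpos (by linarith) g0
    have h2 : 0 ≤ Λ1 / 2 * (S * T * (S - T)) :=
      mul_nonneg (by linarith) (mul_nonneg (mul_nonneg hS0.le hT0) (by linarith))
    rw [gS, mul_zero] at key
    have h3 : S * (m * Λ * l ^ 2 / 2 + l * T * Λ + T ^ 2 * Λ1 / 2 - l - T) ≤ 0 := by
      linarith
    by_contra hcon
    push Not at hcon
    have := mul_pos hS0 hcon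
    linarith
  rcases hl0.lt_or_eq with hl | hl
  · have key : l * (m * Λ * J ^ 2 / 2 + J * T * Λ + T ^ 2 * Λ1 / 2 - J - T)
        = (l - J) * (T ^ 2 * Λ1 / 2 - T)
          + J * (m * Λ * l ^ 2 / 2 + l * T * Λ + T ^ 2 * Λ1 / 2 - l - T)
          - m * Λ / 2 * (l * J * (l - J)) := by ring
    have h1 : (l - J) * (T ^ 2 * Λ1 / 2 - T) ≤ 0 :=
      mul_nonpos_of_nonneg_of_nonpos (by linarith) f0
    have h2 : J * (m * Λ * l ^ 2 / 2 + l * T * Λ + T ^ 2 * Λ1 / 2 - l - T) ≤ 0 :=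
      mul_nonpos_of_nonneg_of_nonpos hJ0 fl
    have h3 : 0 ≤ m * Λ / 2 * (l * J * (l - J)) :=
      mul_nonneg (by positivity) (mul_nonneg (mul_nonneg hl.le hJ0) (by linarith))
    have h4 : l * (m * Λ * J ^ 2 / 2 + J * T * Λ + T ^ 2 * Λ1 / 2 - J - T) ≤ 0 := by
      linarith
    by_contra hcon
    push Not at hcon
    have := mul_pos hl (show 0 < m * Λ * J ^ 2 / 2 + J * T * Λ + T ^ 2 * Λ1 / 2 - J - T by
      linarith)
    linarith
  · have hJ' : J = 0 := le_antisymm (by linarith) hJ0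
    rw [hJ']
    nlinarith

/-- The scaled corner lemma. -/
lemma corner_scaled (hm : 2 ≤ m) (hb : 1 ≤ b) (h : Sst m b ≤ Qst m b)
    (h' : (m : ℝ) / lam m b m ≤ Qst m b) {J T c : ℝ} (hc : 0 ≤ c) (hJ0 : 0 ≤ J)
    (hJ : J ≤ c * lst m b) (hT0 : 0 ≤ T) (hT : T ≤ c * Sst m b) :
    m * lam m b m * J ^ 2 / 2 + J * T * lam m b m + T ^ 2 * lam m b 1 / 2 ≤ c * (J + T) := by
  rcases hc.lt_or_eq with hc | hc
  · have h1 := corner hm hb h h' (J := J / c) (T := T / c) (by positivity)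
      (by rw [div_le_iff₀ hc]; linarith) (by positivity) (by rw [div_le_iff₀ hc]; linarith)
    have h2 := mul_le_mul_of_nonneg_left h1 (sq_nonneg c)
    have e1 : c ^ 2 * (m * lam m b m * (J / c) ^ 2 / 2 + J / c * (T / c) * lam m b m
        + (T / c) ^ 2 * lam m b 1 / 2)
        = m * lam m b m * J ^ 2 / 2 + J * T * lam m b m + T ^ 2 * lam m b 1 / 2 := by
      field_simp
    have e2 : c ^ 2 * (J / c + T / c) = c * (J + T) := by field_simp
    rw [e1, e2] at h2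
    exact h2
  · subst hc
    have h3 : J = 0 := le_antisymm (by linarith) hJ0
    have h4 : T = 0 := le_antisymm (by linarith) hT0
    rw [h3, h4]
    simp

/-- In the mixture case `c* = Q*`; otherwise `c* = low`. -/
lemma cst_cases (m b : ℕ) :
    cst m b ≤ low m b ∨
      (Sst m b ≤ Qst m b ∧ (m : ℝ) / lam m b m ≤ Qst m b ∧ cst m b = Qst m b) := by
  unfold cst low
  by_cases hSQ : Sst m b ≤ Qst m b
  · rw [if_pos hSQ]
    rcases le_total ((m : ℝ) / lam m b m) (Qst m b) with h | h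
    · right
      exact ⟨hSQ, h, max_eq_right h⟩
    · left
      rw [max_eq_left h]
      exact le_max_right _ _
  · left
    rw [if_neg hSQ]
    exact max_le (le_max_right _ _) (le_max_left _ _)

end Pool.Agent.Helper34.GC
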