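import Mathlib
import Pool.Agent.Helper34.GC.Cmp

/-!
# The biased clique game: general criteria for the left inequality `c*(m,b+1) < low(m,b)` and for
`c*(m,b) = low(m,b)`
-/

set_option autoImplicit false

namespace Pool.Agent.Helper34.GC

open Pool.Agent.Helper5.CV

variable {m b : ℕ}

lemma low1 (hm : 1 ≤ m) (hb : 1 ≤ b) : 2 ≤ low m b * lam m b 1 := by
  rw [← div_le_iff₀ (L_pos (by omega) hb (by omega))]; exact le_max_left _ _

lemma low2 (hm : 1 ≤ m) (hb : 1 ≤ b) : (m : ℝ) ≤ low m b * lam m b m := by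
  rw [← div_le_iff₀ (L_pos (by omega) hb (by omega))]; exact le_max_right _ _

lemma low_pos (hm : 1 ≤ m) (hb : 1 ≤ b) : 0 < low m b := by
  by_contra hcon
  push Not at hcon
  have := mul_nonpos_of_nonpos_of_nonneg hcon (L_nonneg m b 1)
  linarith [low1 hm hb]

lemma lows1 (hm : 1 ≤ m) (hb : 1 ≤ b) : 2 < low m b * lam m (b + 1) 1 :=
  lt_of_le_of_lt (low1 hm hb) (mul_lt_mul_of_pos_left (L_lt_succ hm le_rfl) (low_pos hm hb))

lemma lows2 (hm : 1 ≤ m) (hb : 1 ≤ b) : (m : ℝ) < low m b * lam m (b + 1) m :=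
  lt_of_le_of_lt (low2 hm hb) (mul_lt_mul_of_pos_left (L_lt_succ hm hm) (low_pos hm hb))

/-- Criterion with lower bounds for the two numbers. -/
lemma quad (hm : 1 ≤ m) (hb : 1 ≤ b) {xr Ar : ℝ} (hx : xr ≤ low m b * lam m (b + 1) m)
    (hA : 2 + Ar ≤ low m b * lam m (b + 1) 1) (hA0 : 0 < Ar) (hx2 : 2 ≤ xr)
    (hq : (m : ℝ) + 1 ≤ xr ∨ ((m : ℝ) + 1 - xr) ^ 2 < Ar * (m * (xr - 2))) :
    cst m (b + 1) < low m b := by
  have hmr : (1 : ℝ) ≤ m := by exact_mod_cast hm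
  apply cst_lt hm (by omega)
  refine ⟨lows1 hm hb, lows2 hm hb, ?_⟩
  by_cases h : (m : ℝ) + 1 ≤ low m b * lam m (b + 1) m
  · exact Or.inl h
  · right
    push Not at h
    rcases hq with hq | hq
    · linarith
    · calc ((m : ℝ) + 1 - low m b * lam m (b + 1) m) ^ 2 ≤ ((m : ℝ) + 1 - xr) ^ 2 := by
            apply pow_le_pow_left₀ (by linarith) (by linarith)
        _ < Ar * (m * (xr - 2)) := hq
        _ ≤ (low m b * lam m (b + 1) 1 - 2) * (m * (low m b * lam m (b + 1) m - 2)) := by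
            apply mul_le_mul (by linarith) _ (mul_nonneg (by linarith) (by linarith))
              (by linarith)
            apply mul_le_mul_of_nonneg_left (by linarith) (by linarith)

/-- Numerical criterion with `low ≥ 2 / Λ_1`. -/
lemma quadR (hm : 1 ≤ m) (hb : 1 ≤ b) {p1 q1 pm qm : ℕ} (h1 : 0 < q1) (hqm : 0 < qm)
    (e1 : (1 + (b : ℝ) / m) ^ p1 ≤ (1 + ((b : ℝ) + 1) / m) ^ q1)
    (em : (1 + (b : ℝ) / m) ^ pm ≤ ((b : ℝ) + 2) ^ qm)
    (hA0 : (0 : ℝ) < 2 * p1 / q1 - 2) (hx2 : (2 : ℝ) ≤ 2 * pm / qm)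
    (hq : (m : ℝ) + 1 ≤ 2 * pm / qm ∨
      ((m : ℝ) + 1 - 2 * pm / qm) ^ 2 < (2 * p1 / q1 - 2 : ℝ) * (m * (2 * pm / qm - 2))) :
    cst m (b + 1) < low m b := by
  have hm0 : (0 : ℝ) < m := by exact_mod_cast hm
  have h1r : (0 : ℝ) < q1 := by exact_mod_cast h1
  have hqmr : (0 : ℝ) < qm := by exact_mod_cast hqm
  have l1 : lam m b 1 = Real.log (1 + (b : ℝ) / m) := by unfold lam; push_cast; ring_nf
  have l1' : lam m (b + 1) 1 = Real.log (1 + ((b : ℝ) + 1) / m) := by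
    unfold lam; push_cast; ring_nf
  have lm' : lam m (b + 1) m = Real.log ((b : ℝ) + 2) := by
    rw [L_self hm]; congr 1; push_cast; ring
  have f1 := log_pow_le (by positivity) e1
  have fm := log_pow_le (by positivity) em
  rw [← l1, ← l1'] at f1
  rw [← l1, ← lm'] at fm
  have hlow := low1 hm hb
  have hlp := low_pos hm hb
  apply quad hm hb (xr := 2 * pm / qm) (Ar := 2 * p1 / q1 - 2) _ _ hA0 hx2 hq
  · rw [div_le_iff₀ hqmr]
    have := mul_le_mul_of_nonneg_left fm hlp.le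
    have hpm : (0 : ℝ) ≤ pm := by positivity
    nlinarith
  · rw [show (2 : ℝ) + (2 * p1 / q1 - 2) = 2 * p1 / q1 by ring, div_le_iff₀ h1r]
    have := mul_le_mul_of_nonneg_left f1 hlp.le
    have hpm : (0 : ℝ) ≤ p1 := by positivity
    nlinarith

/-- Numerical criterion with `low ≥ m / Λ_m`. -/
lemma quadG (hm : 1 ≤ m) (hb : 1 ≤ b) {p1 q1 pm qm : ℕ} (h1 : 0 < q1) (hqm : 0 < qm)
    (e1 : (1 + (b : ℝ)) ^ p1 ≤ (1 + ((b : ℝ) + 1) / m) ^ q1)
    (em : (1 + (b : ℝ)) ^ pm ≤ ((b : ℝ) + 2) ^ qm)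
    (hA0 : (0 : ℝ) < m * p1 / q1 - 2) (hx2 : (2 : ℝ) ≤ m * pm / qm)
    (hq : (m : ℝ) + 1 ≤ m * pm / qm ∨
      ((m : ℝ) + 1 - m * pm / qm) ^ 2 < (m * p1 / q1 - 2 : ℝ) * (m * (m * pm / qm - 2))) :
    cst m (b + 1) < low m b := by
  have hm0 : (0 : ℝ) < m := by exact_mod_cast hm
  have h1r : (0 : ℝ) < q1 := by exact_mod_cast h1
  have hqmr : (0 : ℝ) < qm := by exact_mod_cast hqm
  have l1' : lam m (b + 1) 1 = Real.log (1 + ((b : ℝ) + 1) / m) := by
    unfold lam; push_cast; ring_nf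
  have lm' : lam m (b + 1) m = Real.log ((b : ℝ) + 2) := by
    rw [L_self hm]; congr 1; push_cast; ring
  have f1 := log_pow_le (by positivity) e1
  have fm := log_pow_le (by positivity) em
  rw [← L_self hm, ← l1'] at f1
  rw [← L_self hm, ← lm'] at fm
  have hlow := low2 hm hb
  have hlp := low_pos hm hb
  apply quad hm hb (xr := m * pm / qm) (Ar := m * p1 / q1 - 2) _ _ hA0 hx2 hq
  · rw [div_le_iff₀ hqmr]
    have := mul_le_mul_of_nonneg_left fm hlp.le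
    have hpm : (0 : ℝ) ≤ pm := by positivity
    nlinarith
  · rw [show (2 : ℝ) + (m * p1 / q1 - 2) = m * p1 / q1 by ring, div_le_iff₀ h1r]
    have := mul_le_mul_of_nonneg_left f1 hlp.le
    have hpm : (0 : ℝ) ≤ p1 := by positivity
    nlinarith

/-- Outside the mixture region, first case. -/
lemma cond_low_of_large {m b : ℕ} (hm : 1 ≤ m) (hb : 1 ≤ b)
    (h : (m : ℝ) + 1 ≤ low m b * lam m b m) : Cond m b (low m b) :=
  ⟨low1 hm hb, low2 hm hb, Or.inl h⟩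

/-- Outside the mixture region, second case: `m Λ_1 / Λ_m ≥ 2 + 1 / (m (m - 2))`. -/
lemma cond_low_of_ratio {m b : ℕ} (hm : 3 ≤ m) (hb : 1 ≤ b)
    (h : (2 * (m * ((m : ℝ) - 2)) + 1) * lam m b m ≤ (m * ((m : ℝ) - 2)) * (m * lam m b 1)) :
    Cond m b (low m b) := by
  have hm1 : 1 ≤ m := by omega
  have hmr : (3 : ℝ) ≤ m := by exact_mod_cast hm
  have hΛ : 0 < lam m b m := L_pos (by omega) hb (by omega)
  have g1 := low1 hm1 hb
  have g2 := low2 hm1 hb
  have gp := low_pos hm1 hb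
  refine ⟨g1, g2, ?_⟩
  by_cases h6 : (m : ℝ) + 1 ≤ low m b * lam m b m
  · exact Or.inl h6
  · right
    push Not at h6
    -- A := low Λ_1 - 2 ≥ 1 / (m (m-2))
    have h7 : 0 < (m : ℝ) * ((m : ℝ) - 2) := mul_pos (by linarith) (by linarith)
    have h8 : 1 ≤ (low m b * lam m b 1 - 2) * (m * ((m : ℝ) - 2)) := by
      have h9 := mul_le_mul_of_nonneg_left h gp.le
      have h10 : (2 * (m * ((m : ℝ) - 2)) + 1) * m
          ≤ (2 * (m * ((m : ℝ) - 2)) + 1) * (low m b * lam m b m) :=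
        mul_le_mul_of_nonneg_left g2 (by linarith)
      have h11 : m * (2 * (m * ((m : ℝ) - 2)) + 1)
          ≤ m * ((m * ((m : ℝ) - 2)) * (low m b * lam m b 1)) := by
        nlinarith
      have h12 := le_of_mul_le_mul_left h11 (by linarith : (0 : ℝ) < m)
      nlinarith
    have h13 : ((m : ℝ) + 1 - low m b * lam m b m) ^ 2 ≤ 1 := by
      have : ((m : ℝ) + 1 - low m b * lam m b m) ^ 2 ≤ 1 ^ 2 := by
        apply pow_le_pow_left₀ (by linarith) (by linarith)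
      simpa using this
    calc ((m : ℝ) + 1 - low m b * lam m b m) ^ 2 ≤ 1 := h13
      _ ≤ (low m b * lam m b 1 - 2) * (m * ((m : ℝ) - 2)) := h8
      _ ≤ (low m b * lam m b 1 - 2) * (m * (low m b * lam m b m - 2)) := by
          apply mul_le_mul_of_nonneg_left _ (by linarith)
          apply mul_le_mul_of_nonneg_left (by linarith) (by linarith)

lemma cst_eq_low_of_cond (hm : 1 ≤ m) (hb : 1 ≤ b) (h : Cond m b (low m b)) :
    cst m b = low m b :=
  le_antisymm (cst_le hm hb h) (low_le_cst hm hb)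

lemma left_of_cond (hm : 1 ≤ m) (hb : 1 ≤ b) (h : Cond m b (low m b)) :
    cst m (b + 1) < low m b :=
  cst_lt hm (by omega) (h.succ hm hb)

/-- The ratio `Λ_1 / Λ_m` grows with `b`: if `r ln (1 + b₀) ≤ ln (1 + b₀ / m)` with `0 ≤ r ≤ 1`,
then the same holds for all `b ≥ b₀`. -/
lemma ratio_mono {m b0 b : ℕ} {r : ℝ} (hm : 1 ≤ m) (hb0 : 1 ≤ b0) (hb : b0 ≤ b) (hr0 : 0 ≤ r)
    (hr1 : r ≤ 1) (h : r * lam m b0 m ≤ lam m b0 1) : r * lam m b m ≤ lam m b 1 := by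
  have hm0 : (0 : ℝ) < m := by exact_mod_cast hm
  have hb0r : (0 : ℝ) < b0 := by exact_mod_cast hb0
  have hbr : (b0 : ℝ) ≤ b := by exact_mod_cast hb
  have hbp : (0 : ℝ) < b := by linarith
  rw [L_self hm] at h ⊢
  have l1 : ∀ b : ℕ, lam m b 1 = Real.log (1 + (b : ℝ) / m) := by
    intro b; unfold lam; push_cast; ring_nf
  rw [l1] at h ⊢
  -- exponentiate
  have h2 : (1 + (b0 : ℝ)) ^ r ≤ 1 + (b0 : ℝ) / m := by
    rw [Real.rpow_def_of_pos (by positivity), ← Real.le_log_iff_exp_le (by positivity)]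
    linarith
  have hx : (1 + (b : ℝ)) ∈ Set.Ici (0 : ℝ) := by
    rw [Set.mem_Ici]; positivity
  have hy : (1 : ℝ) ∈ Set.Ici (0 : ℝ) := by
    rw [Set.mem_Ici]; norm_num
  have ha : 0 ≤ (b0 : ℝ) / b := by positivity
  have hbb : 0 ≤ 1 - (b0 : ℝ) / b := by rw [sub_nonneg, div_le_one hbp]; exact hbr
  have hab : (b0 : ℝ) / b + (1 - (b0 : ℝ) / b) = 1 := by ring
  have hconc := (Real.concaveOn_rpow hr0 hr1).2 hx hy ha hbb hab
  simp only [smul_eq_mul, Real.one_rpow, mul_one] at hconc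
  have he : (b0 : ℝ) / b * (1 + (b : ℝ)) + (1 - (b0 : ℝ) / b) = 1 + b0 := by
    field_simp; ring
  rw [he] at hconc
  -- (1+b)^r ≤ 1 + b/m
  have h3 : (1 + (b : ℝ)) ^ r ≤ 1 + (b : ℝ) / m := by
    have h4 : (b0 : ℝ) / b * (1 + (b : ℝ)) ^ r + (1 - (b0 : ℝ) / b) ≤ 1 + (b0 : ℝ) / m :=
      hconc.trans h2
    have h5 : (b0 : ℝ) / b * (1 + (b : ℝ)) ^ r ≤ (b0 : ℝ) / b * (1 + (b : ℝ) / m) := by
      have : (b0 : ℝ) / b * (1 + (b : ℝ) / m) = (b0 : ℝ) / b + (b0 : ℝ) / m := by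
        field_simp
      rw [this]
      linarith
    exact le_of_mul_le_mul_left h5 (by positivity)
  have h6 := Real.log_le_log (by positivity) h3
  rwa [Real.log_rpow (by positivity)] at h6

/-- Criterion: from `b₀` on we are outside the mixture region. -/
lemma cond_low_from {m b0 b p q : ℕ} (hm : 3 ≤ m) (hb0 : 1 ≤ b0) (hb : b0 ≤ b) (hq : 0 < q)
    (hpq : p ≤ q) (hr : ((2 * (m * ((m : ℝ) - 2)) + 1)) * q ≤ (m * ((m : ℝ) - 2)) * m * p)
    (h : (1 + (b0 : ℝ)) ^ p ≤ (1 + (b0 : ℝ) / m) ^ q) : Cond m b (low m b) := by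
  have hqr : (0 : ℝ) < q := by exact_mod_cast hq
  have hmr : (3 : ℝ) ≤ m := by exact_mod_cast hm
  have h1 : (p : ℝ) / q * lam m b0 m ≤ lam m b0 1 := by
    have f := log_pow_le (by positivity) h
    rw [L_self (by omega), show lam m b0 1 = Real.log (1 + (b0 : ℝ) / m) by
      unfold lam; push_cast; ring_nf]
    rw [div_mul_eq_mul_div, div_le_iff₀ hqr]
    linarith
  have h2 := ratio_mono (m := m) (b0 := b0) (b := b) (r := (p : ℝ) / q) (by omega) hb0 hb
    (by positivity) (by rw [div_le_one hqr]; exact_mod_cast hpq) h1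
  have hΛ : 0 < lam m b m := L_pos (by omega) (by omega) (by omega)
  apply cond_low_of_ratio hm (by omega)
  have h7 : 0 < (m : ℝ) * ((m : ℝ) - 2) := mul_pos (by linarith) (by linarith)
  rw [div_mul_eq_mul_div, div_le_iff₀ hqr] at h2
  -- p Λ_m ≤ q Λ_1
  have h3 : ((2 * (m * ((m : ℝ) - 2)) + 1) * lam m b m) * q
      ≤ ((m * ((m : ℝ) - 2)) * (m * lam m b 1)) * q := by
    calc ((2 * (m * ((m : ℝ) - 2)) + 1) * lam m b m) * q
        = ((2 * (m * ((m : ℝ) - 2)) + 1) * q) * lam m b m := by ring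
      _ ≤ ((m * ((m : ℝ) - 2)) * m * p) * lam m b m :=
          mul_le_mul_of_nonneg_right hr hΛ.le
      _ = ((m * ((m : ℝ) - 2)) * m) * (p * lam m b m) := by ring
      _ ≤ ((m * ((m : ℝ) - 2)) * m) * (lam m b 1 * q) := by
          apply mul_le_mul_of_nonneg_left h2
          exact mul_nonneg h7.le (by linarith)
      _ = _ := by ring
  exact le_of_mul_le_mul_right h3 hqr

end Pool.Agent.Helper34.GC
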