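import Mathlib
import Pool.Agent.Helper34.GC.Left

/-!
# The biased clique game: the left inequality `c*(m,b+1) < low(m,b)` (numerical cases)
-/

set_option autoImplicit false
set_option exponentiation.threshold 10000

namespace Pool.Agent.Helper34.GC

open Pool.Agent.Helper5.CV

lemma left_2_4 : cst 2 (4 + 1) < low 2 4 :=
  quadR (m := 2) (b := 4) (p1 := 9) (q1 := 8) (pm := 13) (qm := 8) (by norm_num) (by norm_num)
    (by norm_num) (by norm_num) (by norm_num) (by norm_num) (by norm_num) (by norm_num) (by norm_num)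

lemma left_2_5 : cst 2 (5 + 1) < low 2 5 :=
  quadR (m := 2) (b := 5) (p1 := 11) (q1 := 10) (pm := 3) (qm := 2) (by norm_num) (by norm_num)
    (by norm_num) (by norm_num) (by norm_num) (by norm_num) (by norm_num) (by norm_num) (by norm_num)

lemma left_2_6 : cst 2 (6 + 1) < low 2 6 :=
  quadR (m := 2) (b := 6) (p1 := 13) (q1 := 12) (pm := 16) (qm := 11) (by norm_num) (by norm_num)
    (by norm_num) (by norm_num) (by norm_num) (by norm_num) (by norm_num) (by norm_num) (by norm_num)

lemma left_2_7 : cst 2 (7 + 1) < low 2 7 :=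
  quadR (m := 2) (b := 7) (p1 := 16) (q1 := 15) (pm := 16) (qm := 11) (by norm_num) (by norm_num)
    (by norm_num) (by norm_num) (by norm_num) (by norm_num) (by norm_num) (by norm_num) (by norm_num)

lemma left_2_8 : cst 2 (8 + 1) < low 2 8 :=
  quadR (m := 2) (b := 8) (p1 := 18) (q1 := 17) (pm := 10) (qm := 7) (by norm_num) (by norm_num)
    (by norm_num) (by norm_num) (by norm_num) (by norm_num) (by norm_num) (by norm_num) (by norm_num)

lemma left_2_9 : cst 2 (9 + 1) < low 2 9 :=
  quadR (m := 2) (b := 9) (p1 := 21) (q1 := 20) (pm := 7) (qm := 5) (by norm_num) (by norm_num)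
    (by norm_num) (by norm_num) (by norm_num) (by norm_num) (by norm_num) (by norm_num) (by norm_num)

lemma left_2_10 : cst 2 (10 + 1) < low 2 10 :=
  quadR (m := 2) (b := 10) (p1 := 24) (q1 := 23) (pm := 18) (qm := 13) (by norm_num) (by norm_num)
    (by norm_num) (by norm_num) (by norm_num) (by norm_num) (by norm_num) (by norm_num) (by norm_num)

lemma left_2_11 : cst 2 (11 + 1) < low 2 11 :=
  quadR (m := 2) (b := 11) (p1 := 27) (q1 := 26) (pm := 26) (qm := 19) (by norm_num) (by norm_num)
    (by norm_num) (by norm_num) (by norm_num) (by norm_num) (by norm_num) (by norm_num) (by norm_num)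

lemma left_2_12 : cst 2 (12 + 1) < low 2 12 :=
  quadR (m := 2) (b := 12) (p1 := 30) (q1 := 29) (pm := 23) (qm := 17) (by norm_num) (by norm_num)
    (by norm_num) (by norm_num) (by norm_num) (by norm_num) (by norm_num) (by norm_num) (by norm_num)

lemma left_3_4 : cst 3 (4 + 1) < low 3 4 :=
  quadR (m := 3) (b := 4) (p1 := 8) (q1 := 7) (pm := 2) (qm := 1) (by norm_num) (by norm_num)
    (by norm_num) (by norm_num) (by norm_num) (by norm_num) (by norm_num) (by norm_num) (by norm_num)

lemma left_3_5 : cst 3 (5 + 1) < low 3 5 :=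
  quadR (m := 3) (b := 5) (p1 := 10) (q1 := 9) (pm := 17) (qm := 9) (by norm_num) (by norm_num)
    (by norm_num) (by norm_num) (by norm_num) (by norm_num) (by norm_num) (by norm_num) (by norm_num)

lemma left_3_6 : cst 3 (6 + 1) < low 3 6 :=
  quadR (m := 3) (b := 6) (p1 := 12) (q1 := 11) (pm := 17) (qm := 9) (by norm_num) (by norm_num)
    (by norm_num) (by norm_num) (by norm_num) (by norm_num) (by norm_num) (by norm_num) (by norm_num)

lemma left_3_7 : cst 3 (7 + 1) < low 3 7 :=
  quadR (m := 3) (b := 7) (p1 := 14) (q1 := 13) (pm := 20) (qm := 11) (by norm_num) (by norm_num)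
    (by norm_num) (by norm_num) (by norm_num) (by norm_num) (by norm_num) (by norm_num) (by norm_num)

lemma left_3_8 : cst 3 (8 + 1) < low 3 8 :=
  quadR (m := 3) (b := 8) (p1 := 16) (q1 := 15) (pm := 23) (qm := 13) (by norm_num) (by norm_num)
    (by norm_num) (by norm_num) (by norm_num) (by norm_num) (by norm_num) (by norm_num) (by norm_num)

lemma left_3_9 : cst 3 (9 + 1) < low 3 9 :=
  quadR (m := 3) (b := 9) (p1 := 19) (q1 := 18) (pm := 19) (qm := 11) (by norm_num) (by norm_num)
    (by norm_num) (by norm_num) (by norm_num) (by norm_num) (by norm_num) (by norm_num) (by norm_num)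

lemma left_3_10 : cst 3 (10 + 1) < low 3 10 :=
  quadR (m := 3) (b := 10) (p1 := 21) (q1 := 20) (pm := 22) (qm := 13) (by norm_num) (by norm_num)
    (by norm_num) (by norm_num) (by norm_num) (by norm_num) (by norm_num) (by norm_num) (by norm_num)

lemma left_4_3 : cst 4 (3 + 1) < low 4 3 :=
  quadR (m := 4) (b := 3) (p1 := 6) (q1 := 5) (pm := 14) (qm := 5) (by norm_num) (by norm_num)
    (by norm_num) (by norm_num) (by norm_num) (by norm_num) (by norm_num) (by norm_num) (by norm_num)

lemma left_4_4 : cst 4 (4 + 1) < low 4 4 :=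
  quadR (m := 4) (b := 4) (p1 := 7) (q1 := 6) (pm := 5) (qm := 2) (by norm_num) (by norm_num)
    (by norm_num) (by norm_num) (by norm_num) (by norm_num) (by norm_num) (by norm_num) (by norm_num)

lemma left_4_5 : cst 4 (5 + 1) < low 4 5 :=
  quadR (m := 4) (b := 5) (p1 := 9) (q1 := 8) (pm := 19) (qm := 8) (by norm_num) (by norm_num)
    (by norm_num) (by norm_num) (by norm_num) (by norm_num) (by norm_num) (by norm_num) (by norm_num)

lemma left_4_6 : cst 4 (6 + 1) < low 4 6 :=
  quadR (m := 4) (b := 6) (p1 := 11) (q1 := 10) (pm := 9) (qm := 4) (by norm_num) (by norm_num)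
    (by norm_num) (by norm_num) (by norm_num) (by norm_num) (by norm_num) (by norm_num) (by norm_num)

lemma left_4_7 : cst 4 (7 + 1) < low 4 7 :=
  quadR (m := 4) (b := 7) (p1 := 13) (q1 := 12) (pm := 13) (qm := 6) (by norm_num) (by norm_num)
    (by norm_num) (by norm_num) (by norm_num) (by norm_num) (by norm_num) (by norm_num) (by norm_num)

lemma left_4_8 : cst 4 (8 + 1) < low 4 8 :=
  quadG (m := 4) (b := 8) (p1 := 8) (q1 := 15) (pm := 1) (qm := 1) (by norm_num) (by norm_num)
    (by norm_num) (by norm_num) (by norm_num) (by norm_num) (by norm_num) (by norm_num) (by norm_num)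

lemma left_4_9 : cst 4 (9 + 1) < low 4 9 :=
  quadG (m := 4) (b := 9) (p1 := 7) (q1 := 13) (pm := 1) (qm := 1) (by norm_num) (by norm_num)
    (by norm_num) (by norm_num) (by norm_num) (by norm_num) (by norm_num) (by norm_num) (by norm_num)

lemma left_4_10 : cst 4 (10 + 1) < low 4 10 :=
  quadG (m := 4) (b := 10) (p1 := 6) (q1 := 11) (pm := 1) (qm := 1) (by norm_num) (by norm_num)
    (by norm_num) (by norm_num) (by norm_num) (by norm_num) (by norm_num) (by norm_num) (by norm_num)

lemma left_5_3 : cst 5 (3 + 1) < low 5 3 :=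
  quadR (m := 5) (b := 3) (p1 := 5) (q1 := 4) (pm := 10) (qm := 3) (by norm_num) (by norm_num)
    (by norm_num) (by norm_num) (by norm_num) (by norm_num) (by norm_num) (by norm_num) (by norm_num)

lemma left_5_4 : cst 5 (4 + 1) < low 5 4 :=
  quadR (m := 5) (b := 4) (p1 := 7) (q1 := 6) (pm := 3) (qm := 1) (by norm_num) (by norm_num)
    (by norm_num) (by norm_num) (by norm_num) (by norm_num) (by norm_num) (by norm_num) (by norm_num)

lemma left_5_5 : cst 5 (5 + 1) < low 5 5 :=
  quadR (m := 5) (b := 5) (p1 := 9) (q1 := 8) (pm := 14) (qm := 5) (by norm_num) (by norm_num)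
    (by norm_num) (by norm_num) (by norm_num) (by norm_num) (by norm_num) (by norm_num) (by norm_num)

lemma left_5_6 : cst 5 (6 + 1) < low 5 6 :=
  quadG (m := 5) (b := 6) (p1 := 3) (q1 := 7) (pm := 1) (qm := 1) (by norm_num) (by norm_num)
    (by norm_num) (by norm_num) (by norm_num) (by norm_num) (by norm_num) (by norm_num) (by norm_num)

lemma left_6_3 : cst 6 (3 + 1) < low 6 3 :=
  quadR (m := 6) (b := 3) (p1 := 5) (q1 := 4) (pm := 15) (qm := 4) (by norm_num) (by norm_num)
    (by norm_num) (by norm_num) (by norm_num) (by norm_num) (by norm_num) (by norm_num) (by norm_num)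

lemma left_6_4 : cst 6 (4 + 1) < low 6 4 :=
  quadR (m := 6) (b := 4) (p1 := 7) (q1 := 6) (pm := 7) (qm := 2) (by norm_num) (by norm_num)
    (by norm_num) (by norm_num) (by norm_num) (by norm_num) (by norm_num) (by norm_num) (by norm_num)

lemma left_6_5 : cst 6 (5 + 1) < low 6 5 :=
  quadG (m := 6) (b := 5) (p1 := 3) (q1 := 8) (pm := 1) (qm := 1) (by norm_num) (by norm_num)
    (by norm_num) (by norm_num) (by norm_num) (by norm_num) (by norm_num) (by norm_num) (by norm_num)

lemma left_7_3 : cst 7 (3 + 1) < low 7 3 :=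
  quadR (m := 7) (b := 3) (p1 := 5) (q1 := 4) (pm := 9) (qm := 2) (by norm_num) (by norm_num)
    (by norm_num) (by norm_num) (by norm_num) (by norm_num) (by norm_num) (by norm_num) (by norm_num)

lemma left_7_4 : cst 7 (4 + 1) < low 7 4 :=
  quadR (m := 7) (b := 4) (p1 := 7) (q1 := 6) (pm := 23) (qm := 6) (by norm_num) (by norm_num)
    (by norm_num) (by norm_num) (by norm_num) (by norm_num) (by norm_num) (by norm_num) (by norm_num)

lemma left_8_3 : cst 8 (3 + 1) < low 8 3 :=
  quadR (m := 8) (b := 3) (p1 := 5) (q1 := 4) (pm := 5) (qm := 1) (by norm_num) (by norm_num)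
    (by norm_num) (by norm_num) (by norm_num) (by norm_num) (by norm_num) (by norm_num) (by norm_num)

lemma left_8_4 : cst 8 (4 + 1) < low 8 4 :=
  quadG (m := 8) (b := 4) (p1 := 2) (q1 := 7) (pm := 1) (qm := 1) (by norm_num) (by norm_num)
    (by norm_num) (by norm_num) (by norm_num) (by norm_num) (by norm_num) (by norm_num) (by norm_num)

lemma left_9_3 : cst 9 (3 + 1) < low 9 3 :=
  quadR (m := 9) (b := 3) (p1 := 5) (q1 := 4) (pm := 11) (qm := 2) (by norm_num) (by norm_num)
    (by norm_num) (by norm_num) (by norm_num) (by norm_num) (by norm_num) (by norm_num) (by norm_num)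

lemma left_10_3 : cst 10 (3 + 1) < low 10 3 :=
  quadR (m := 10) (b := 3) (p1 := 5) (q1 := 4) (pm := 6) (qm := 1) (by norm_num) (by norm_num)
    (by norm_num) (by norm_num) (by norm_num) (by norm_num) (by norm_num) (by norm_num) (by norm_num)

lemma left_11_3 : cst 11 (3 + 1) < low 11 3 :=
  quadR (m := 11) (b := 3) (p1 := 5) (q1 := 4) (pm := 20) (qm := 3) (by norm_num) (by norm_num)
    (by norm_num) (by norm_num) (by norm_num) (by norm_num) (by norm_num) (by norm_num) (by norm_num)

lemma left_12_3 : cst 12 (3 + 1) < low 12 3 :=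
  quadR (m := 12) (b := 3) (p1 := 5) (q1 := 4) (pm := 7) (qm := 1) (by norm_num) (by norm_num)
    (by norm_num) (by norm_num) (by norm_num) (by norm_num) (by norm_num) (by norm_num) (by norm_num)

lemma left_13_3 : cst 13 (3 + 1) < low 13 3 :=
  quadR (m := 13) (b := 3) (p1 := 5) (q1 := 4) (pm := 31) (qm := 4) (by norm_num) (by norm_num)
    (by norm_num) (by norm_num) (by norm_num) (by norm_num) (by norm_num) (by norm_num) (by norm_num)

lemma left_14_3 : cst 14 (3 + 1) < low 14 3 :=
  quadR (m := 14) (b := 3) (p1 := 5) (q1 := 4) (pm := 33) (qm := 4) (by norm_num) (by norm_num)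
    (by norm_num) (by norm_num) (by norm_num) (by norm_num) (by norm_num) (by norm_num) (by norm_num)

lemma left_15_3 : cst 15 (3 + 1) < low 15 3 :=
  quadR (m := 15) (b := 3) (p1 := 5) (q1 := 4) (pm := 35) (qm := 4) (by norm_num) (by norm_num)
    (by norm_num) (by norm_num) (by norm_num) (by norm_num) (by norm_num) (by norm_num) (by norm_num)

lemma left_16_3 : cst 16 (3 + 1) < low 16 3 :=
  quadR (m := 16) (b := 3) (p1 := 5) (q1 := 4) (pm := 28) (qm := 3) (by norm_num) (by norm_num)
    (by norm_num) (by norm_num) (by norm_num) (by norm_num) (by norm_num) (by norm_num) (by norm_num)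

lemma left_17_3 : cst 17 (3 + 1) < low 17 3 :=
  quadR (m := 17) (b := 3) (p1 := 5) (q1 := 4) (pm := 39) (qm := 4) (by norm_num) (by norm_num)
    (by norm_num) (by norm_num) (by norm_num) (by norm_num) (by norm_num) (by norm_num) (by norm_num)

lemma left_18_3 : cst 18 (3 + 1) < low 18 3 :=
  quadG (m := 18) (b := 3) (p1 := 1) (q1 := 7) (pm := 8) (qm := 7) (by norm_num) (by norm_num)
    (by norm_num) (by norm_num) (by norm_num) (by norm_num) (by norm_num) (by norm_num) (by norm_num)

lemma left_3_121 : cst 3 (121 + 1) < low 3 121 :=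
  quadG (m := 3) (b := 121) (p1 := 427) (q1 := 550) (pm := 590) (qm := 589) (by norm_num) (by norm_num)
    (by norm_num) (by norm_num) (by norm_num) (by norm_num) (by norm_num) (by norm_num) (by norm_num)

lemma left_3_122 : cst 3 (122 + 1) < low 3 122 :=
  quadG (m := 3) (b := 122) (p1 := 80) (q1 := 103) (pm := 596) (qm := 595) (by norm_num) (by norm_num)
    (by norm_num) (by norm_num) (by norm_num) (by norm_num) (by norm_num) (by norm_num) (by norm_num)

lemma left_3_123 : cst 3 (123 + 1) < low 3 123 :=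
  quadG (m := 3) (b := 123) (p1 := 352) (q1 := 453) (pm := 602) (qm := 601) (by norm_num) (by norm_num)
    (by norm_num) (by norm_num) (by norm_num) (by norm_num) (by norm_num) (by norm_num) (by norm_num)

lemma left_3_124 : cst 3 (124 + 1) < low 3 124 :=
  quadG (m := 3) (b := 124) (p1 := 213) (q1 := 274) (pm := 607) (qm := 606) (by norm_num) (by norm_num)
    (by norm_num) (by norm_num) (by norm_num) (by norm_num) (by norm_num) (by norm_num) (by norm_num)

lemma left_3_125 : cst 3 (125 + 1) < low 3 125 :=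
  quadG (m := 3) (b := 125) (p1 := 500) (q1 := 643) (pm := 613) (qm := 612) (by norm_num) (by norm_num)
    (by norm_num) (by norm_num) (by norm_num) (by norm_num) (by norm_num) (by norm_num) (by norm_num)

lemma left_3_126 : cst 3 (126 + 1) < low 3 126 :=
  quadG (m := 3) (b := 126) (p1 := 347) (q1 := 446) (pm := 1) (qm := 1) (by norm_num) (by norm_num)
    (by norm_num) (by norm_num) (by norm_num) (by norm_num) (by norm_num) (by norm_num) (by norm_num)

lemma left_3_127 : cst 3 (127 + 1) < low 3 127 :=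
  quadG (m := 3) (b := 127) (p1 := 151) (q1 := 194) (pm := 1) (qm := 1) (by norm_num) (by norm_num)
    (by norm_num) (by norm_num) (by norm_num) (by norm_num) (by norm_num) (by norm_num) (by norm_num)

lemma left_3_128 : cst 3 (128 + 1) < low 3 128 :=
  quadG (m := 3) (b := 128) (p1 := 102) (q1 := 131) (pm := 1) (qm := 1) (by norm_num) (by norm_num)
    (by norm_num) (by norm_num) (by norm_num) (by norm_num) (by norm_num) (by norm_num) (by norm_num)

lemma left_3_129 : cst 3 (129 + 1) < low 3 129 :=
  quadG (m := 3) (b := 129) (p1 := 74) (q1 := 95) (pm := 1) (qm := 1) (by norm_num) (by norm_num)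
    (by norm_num) (by norm_num) (by norm_num) (by norm_num) (by norm_num) (by norm_num) (by norm_num)

lemma left_3_130 : cst 3 (130 + 1) < low 3 130 :=
  quadG (m := 3) (b := 130) (p1 := 60) (q1 := 77) (pm := 1) (qm := 1) (by norm_num) (by norm_num)
    (by norm_num) (by norm_num) (by norm_num) (by norm_num) (by norm_num) (by norm_num) (by norm_num)

lemma cond_3 {b : ℕ} (hb : 131 ≤ b) : Cond 3 b (low 3 b) :=
  cond_low_from (m := 3) (b0 := 131) (p := 7) (q := 9) (by norm_num) (by norm_num) hb (by norm_num)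
    (by norm_num) (by norm_num) (by norm_num)

lemma cond_4 {b : ℕ} (hb : 11 ≤ b) : Cond 4 b (low 4 b) :=
  cond_low_from (m := 4) (b0 := 11) (p := 17) (q := 32) (by norm_num) (by norm_num) hb (by norm_num)
    (by norm_num) (by norm_num) (by norm_num)

lemma cond_5 {b : ℕ} (hb : 7 ≤ b) : Cond 5 b (low 5 b) :=
  cond_low_from (m := 5) (b0 := 7) (p := 5) (q := 12) (by norm_num) (by norm_num) hb (by norm_num)
    (by norm_num) (by norm_num) (by norm_num)

lemma cond_6 {b : ℕ} (hb : 6 ≤ b) : Cond 6 b (low 6 b) :=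
  cond_low_from (m := 6) (b0 := 6) (p := 6) (q := 17) (by norm_num) (by norm_num) hb (by norm_num)
    (by norm_num) (by norm_num) (by norm_num)

lemma cond_7 {b : ℕ} (hb : 5 ≤ b) : Cond 7 b (low 7 b) :=
  cond_low_from (m := 7) (b0 := 5) (p := 3) (q := 10) (by norm_num) (by norm_num) hb (by norm_num)
    (by norm_num) (by norm_num) (by norm_num)

lemma cond_8 {b : ℕ} (hb : 5 ≤ b) : Cond 8 b (low 8 b) :=
  cond_low_from (m := 8) (b0 := 5) (p := 4) (q := 15) (by norm_num) (by norm_num) hb (by norm_num)
    (by norm_num) (by norm_num) (by norm_num)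

lemma cond_9 {b : ℕ} (hb : 4 ≤ b) : Cond 9 b (low 9 b) :=
  cond_low_from (m := 9) (b0 := 4) (p := 5) (q := 22) (by norm_num) (by norm_num) hb (by norm_num)
    (by norm_num) (by norm_num) (by norm_num)

lemma cond_10 {b : ℕ} (hb : 4 ≤ b) : Cond 10 b (low 10 b) :=
  cond_low_from (m := 10) (b0 := 4) (p := 5) (q := 24) (by norm_num) (by norm_num) hb (by norm_num)
    (by norm_num) (by norm_num) (by norm_num)

lemma cond_11 {b : ℕ} (hb : 4 ≤ b) : Cond 11 b (low 11 b) :=
  cond_low_from (m := 11) (b0 := 4) (p := 3) (q := 16) (by norm_num) (by norm_num) hb (by norm_num)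
    (by norm_num) (by norm_num) (by norm_num)

lemma cond_12 {b : ℕ} (hb : 4 ≤ b) : Cond 12 b (low 12 b) :=
  cond_low_from (m := 12) (b0 := 4) (p := 3) (q := 17) (by norm_num) (by norm_num) hb (by norm_num)
    (by norm_num) (by norm_num) (by norm_num)

lemma cond_13 {b : ℕ} (hb : 4 ≤ b) : Cond 13 b (low 13 b) :=
  cond_low_from (m := 13) (b0 := 4) (p := 1) (q := 6) (by norm_num) (by norm_num) hb (by norm_num)
    (by norm_num) (by norm_num) (by norm_num)

lemma cond_14 {b : ℕ} (hb : 4 ≤ b) : Cond 14 b (low 14 b) :=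
  cond_low_from (m := 14) (b0 := 4) (p := 2) (q := 13) (by norm_num) (by norm_num) hb (by norm_num)
    (by norm_num) (by norm_num) (by norm_num)

lemma cond_15 {b : ℕ} (hb : 4 ≤ b) : Cond 15 b (low 15 b) :=
  cond_low_from (m := 15) (b0 := 4) (p := 1) (q := 7) (by norm_num) (by norm_num) hb (by norm_num)
    (by norm_num) (by norm_num) (by norm_num)

lemma cond_16 {b : ℕ} (hb : 4 ≤ b) : Cond 16 b (low 16 b) :=
  cond_low_from (m := 16) (b0 := 4) (p := 2) (q := 15) (by norm_num) (by norm_num) hb (by norm_num)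
    (by norm_num) (by norm_num) (by norm_num)

lemma cond_17 {b : ℕ} (hb : 4 ≤ b) : Cond 17 b (low 17 b) :=
  cond_low_from (m := 17) (b0 := 4) (p := 1) (q := 8) (by norm_num) (by norm_num) hb (by norm_num)
    (by norm_num) (by norm_num) (by norm_num)

lemma cond_18 {b : ℕ} (hb : 4 ≤ b) : Cond 18 b (low 18 b) :=
  cond_low_from (m := 18) (b0 := 4) (p := 2) (q := 17) (by norm_num) (by norm_num) hb (by norm_num)
    (by norm_num) (by norm_num) (by norm_num)

end Pool.Agent.Helper34.GC
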