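import Mathlib
import Pool.Agent.Helper34.GC.LeftNum

/-!
# The biased clique game: the left inequality `c*(m,b+1) < low(m,b)` and `c* = low` for `m ≥ 19`
-/

set_option autoImplicit false
set_option exponentiation.threshold 10000

namespace Pool.Agent.Helper34.GC

open Pool.Agent.Helper5.CV

lemma log_three_ge : (20 : ℝ) / 19 ≤ Real.log 3 := by
  rw [Real.le_log_iff_exp_le (by norm_num)]
  have h1 : Real.exp (20 / 19) = Real.exp 1 ^ ((20 : ℝ) / 19) := by
    rw [← Real.exp_mul]; norm_num
  have h2 : Real.exp 1 < 2.7182818286 := Real.exp_one_lt_d9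
  have h3 : Real.exp (20 / 19) ^ 19 ≤ 3 ^ 19 := by
    rw [← Real.exp_nat_mul]
    have : ((19 : ℕ) : ℝ) * (20 / 19) = (20 : ℕ) := by norm_num
    rw [this, ← Real.exp_one_pow]
    calc Real.exp 1 ^ 20 ≤ 2.7182818286 ^ 20 := by
          apply pow_le_pow_left₀ (Real.exp_pos 1).le h2.le
      _ ≤ 3 ^ 19 := by norm_num
  exact le_of_pow_le_pow_left₀ (by norm_num) (by norm_num) h3

lemma L1_le {m b : ℕ} (hm : 1 ≤ m) : (m : ℝ) * lam m b 1 ≤ b := by
  have hm0 : (0 : ℝ) < m := by exact_mod_cast hm
  have h1 : lam m b 1 ≤ (b : ℝ) * (1 : ℕ) / m := by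
    unfold lam
    have := Real.log_le_sub_one_of_pos (arg_pos m b 1)
    linarith
  calc (m : ℝ) * lam m b 1 ≤ m * ((b : ℝ) * (1 : ℕ) / m) :=
        mul_le_mul_of_nonneg_left h1 hm0.le
    _ = b := by push_cast; field_simp

/-- `m + 1 ≤ low Λ'` as soon as `(m + 1) Λ_1 ≤ 2 Λ'`. -/
lemma large_of {m b : ℕ} (hm : 1 ≤ m) (hb : 1 ≤ b) {y : ℝ}
    (h : ((m : ℝ) + 1) * lam m b 1 ≤ 2 * y) (hy : 0 ≤ y) : (m : ℝ) + 1 ≤ low m b * y := by
  have hΛ1 : 0 < lam m b 1 := L_pos (by omega) hb (by omega)
  have h1 : 2 / lam m b 1 ≤ low m b := le_max_left _ _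
  calc (m : ℝ) + 1 = (((m : ℝ) + 1) * lam m b 1) / lam m b 1 := by field_simp
    _ ≤ (2 * y) / lam m b 1 := by gcongr
    _ = 2 / lam m b 1 * y := by ring
    _ ≤ low m b * y := mul_le_mul_of_nonneg_right h1 hy

lemma left_large {m b : ℕ} (hm : 1 ≤ m) (hb : 1 ≤ b)
    (h : ((m : ℝ) + 1) * lam m b 1 ≤ 2 * lam m (b + 1) m) : cst m (b + 1) < low m b := by
  apply cst_lt hm (by omega)
  exact ⟨lows1 hm hb, lows2 hm hb, Or.inl (large_of hm hb h (L_nonneg _ _ _))⟩

lemma left_b1 {m : ℕ} (hm : 1 ≤ m) : cst m (1 + 1) < low m 1 := by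
  apply left_large hm le_rfl
  have hm0 : (1 : ℝ) ≤ m := by exact_mod_cast hm
  have h1 := L1_le (b := 1) hm
  rw [L_self hm]
  push_cast at h1 ⊢
  have h2 := log_three_ge
  norm_num
  have h3 : lam m 1 1 ≤ 1 := by
    have := L_nonneg m 1 1
    nlinarith
  nlinarith

lemma left_b2 {m : ℕ} (hm : 1 ≤ m) : cst m (2 + 1) < low m 2 := by
  apply left_large hm (by norm_num)
  have h1 := L1_le (b := 2) hm
  rw [L_self hm]
  push_cast at h1 ⊢
  norm_num
  have h4 : Real.log 4 = 2 * Real.log 2 := by
    rw [show (4 : ℝ) = 2 ^ 2 by norm_num, Real.log_pow]; norm_num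
  have h2 := Real.log_two_gt_d9
  rw [h4]
  rcases Nat.lt_or_ge m 3 with hm3 | hm3
  · have hc : m = 1 ∨ m = 2 := by omega
    rcases hc with rfl | rfl
    · have : lam 1 2 1 = Real.log 3 := by unfold lam; norm_num
      rw [this]
      have h5 : Real.log 3 ≤ Real.log 4 := Real.log_le_log (by norm_num) (by norm_num)
      push_cast
      linarith
    · have : lam 2 2 1 = Real.log 2 := by unfold lam; norm_num
      rw [this]
      push_cast
      linarith
  · have hm0 : (3 : ℝ) ≤ m := by exact_mod_cast hm3
    have h3 : lam m 2 1 ≤ 2 / 3 := by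
      have := L_nonneg m 2 1
      nlinarith
    nlinarith

/-- `b ≥ 3`, `m ≥ 19`. -/
lemma cond_large {m b : ℕ} (hm : 19 ≤ m) (hb : 3 ≤ b) : Cond m b (low m b) := by
  have hm19 : (19 : ℝ) ≤ m := by exact_mod_cast hm
  have hm0 : (0 : ℝ) < m := by linarith
  -- 19 ln (22/19) ≥ (301/150) ln 4
  have h1 : (301 : ℝ) / 150 * Real.log 4 ≤ 19 * Real.log (22 / 19) := by
    have := log_pow_le (u := 4) (v := 22 / 19) (p := 301) (q := 2850) (by norm_num) (by norm_num)
    push_cast at this
    linarith
  -- concavity
  have h2 : 19 * Real.log (22 / 19) ≤ m * Real.log (1 + 3 / m) := by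
    have hx : (22 / 19 : ℝ) ∈ Set.Ioi (0 : ℝ) := by rw [Set.mem_Ioi]; norm_num
    have hy : (1 : ℝ) ∈ Set.Ioi (0 : ℝ) := by rw [Set.mem_Ioi]; norm_num
    have ha : 0 ≤ (19 : ℝ) / m := by positivity
    have hb' : 0 ≤ 1 - (19 : ℝ) / m := by rw [sub_nonneg, div_le_one hm0]; exact hm19
    have := strictConcaveOn_log_Ioi.concaveOn.2 hx hy ha hb' (by ring)
    simp only [smul_eq_mul, Real.log_one, mul_zero, add_zero] at this
    have he : (19 : ℝ) / m * (22 / 19) + (1 - 19 / m) * 1 = 1 + 3 / m := by
      field_simp; ring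
    rw [he] at this
    have h3 := mul_le_mul_of_nonneg_left this hm0.le
    calc 19 * Real.log (22 / 19) = m * (19 / m * Real.log (22 / 19)) := by field_simp
      _ ≤ _ := h3
  have h3 : (301 / 150 : ℝ) / m * lam m 3 m ≤ lam m 3 1 := by
    have l1 : lam m 3 1 = Real.log (1 + 3 / m) := by unfold lam; push_cast; ring_nf
    rw [L_self (by omega), l1]
    push_cast
    norm_num
    have h4 : m * ((301 / 150 : ℝ) / m * Real.log 4) ≤ m * Real.log (1 + 3 / m) := by
      calc m * ((301 / 150 : ℝ) / m * Real.log 4) = 301 / 150 * Real.log 4 := by field_simp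
        _ ≤ _ := h1.trans h2
    exact le_of_mul_le_mul_left h4 hm0
  have h5 := ratio_mono (m := m) (b0 := 3) (b := b) (r := (301 / 150 : ℝ) / m) (by omega)
    (by norm_num) hb (by positivity) (by rw [div_le_one hm0]; linarith) h3
  have hΛ : 0 < lam m b m := L_pos (by omega) (by omega) (by omega)
  apply cond_low_of_ratio (by omega) (by omega)
  rw [div_mul_eq_mul_div, div_le_iff₀ hm0] at h5
  have h7 : (323 : ℝ) ≤ (m : ℝ) * ((m : ℝ) - 2) := by nlinarith
  calc (2 * (m * ((m : ℝ) - 2)) + 1) * lam m b m
      ≤ (m * ((m : ℝ) - 2)) * (301 / 150 * lam m b m) := by nlinarith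
    _ ≤ (m * ((m : ℝ) - 2)) * (lam m b 1 * m) := by
        apply mul_le_mul_of_nonneg_left h5 (by linarith)
    _ = _ := by ring

/-- For `m ≥ 19` we have `c* = low` for all `b`. -/
theorem cst_eq_low {m b : ℕ} (hm : 19 ≤ m) (hb : 1 ≤ b) : cst m b = low m b := by
  have hm1 : 1 ≤ m := by omega
  apply cst_eq_low_of_cond hm1 hb
  rcases Nat.lt_or_ge b 3 with h | h
  · apply cond_low_of_large hm1 hb
    apply large_of hm1 hb _ (L_nonneg _ _ _)
    have hm19 : (19 : ℝ) ≤ m := by exact_mod_cast hm
    have hc : b = 1 ∨ b = 2 := by omega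
    rcases hc with rfl | rfl
    · have h1 := L1_le (b := 1) hm1
      rw [L_self hm1]
      push_cast at h1 ⊢
      norm_num
      have h2 := Real.log_two_gt_d9
      have h3 : lam m 1 1 ≤ 1 / 19 := by
        have := L_nonneg m 1 1
        nlinarith
      nlinarith
    · have h1 := L1_le (b := 2) hm1
      rw [L_self hm1]
      push_cast at h1 ⊢
      norm_num
      have h2 := log_three_ge
      have h3 : lam m 2 1 ≤ 2 / 19 := by
        have := L_nonneg m 2 1
        nlinarith
      nlinarith
  · exact cond_large hm h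

lemma left_one {b : ℕ} (hb : 1 ≤ b) : cst 1 (b + 1) < low 1 b := by
  apply left_of_cond le_rfl hb
  apply cond_low_of_large le_rfl hb
  have := low1 (m := 1) (b := b) le_rfl hb
  push_cast
  linarith

/-- The left inequality for `m ≥ 4` (all `b`). -/
theorem left_four {m b : ℕ} (hm : 4 ≤ m) (hb : 1 ≤ b) : cst m (b + 1) < low m b := by
  have hm1 : 1 ≤ m := by omega
  rcases Nat.lt_or_ge b 3 with h | h3
  · have hc : b = 1 ∨ b = 2 := by omega
    rcases hc with rfl | rfl
    · exact left_b1 hm1
    · exact left_b2 hm1
  · rcases Nat.lt_or_ge m 19 with h19 | h19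
    · interval_cases m
      · rcases Nat.lt_or_ge b 11 with h | h
        · interval_cases b
          · exact left_4_3
          · exact left_4_4
          · exact left_4_5
          · exact left_4_6
          · exact left_4_7
          · exact left_4_8
          · exact left_4_9
          · exact left_4_10
        · exact left_of_cond hm1 hb (cond_4 h)
      · rcases Nat.lt_or_ge b 7 with h | h
        · interval_cases b
          · exact left_5_3
          · exact left_5_4
          · exact left_5_5
          · exact left_5_6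
        · exact left_of_cond hm1 hb (cond_5 h)
      · rcases Nat.lt_or_ge b 6 with h | h
        · interval_cases b
          · exact left_6_3
          · exact left_6_4
          · exact left_6_5
        · exact left_of_cond hm1 hb (cond_6 h)
      · rcases Nat.lt_or_ge b 5 with h | h
        · interval_cases b
          · exact left_7_3
          · exact left_7_4
        · exact left_of_cond hm1 hb (cond_7 h)
      · rcases Nat.lt_or_ge b 5 with h | h
        · interval_cases b
          · exact left_8_3
          · exact left_8_4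
        · exact left_of_cond hm1 hb (cond_8 h)
      · rcases Nat.lt_or_ge b 4 with h | h
        · interval_cases b
          exact left_9_3
        · exact left_of_cond hm1 hb (cond_9 h)
      · rcases Nat.lt_or_ge b 4 with h | h
        · interval_cases b
          exact left_10_3
        · exact left_of_cond hm1 hb (cond_10 h)
      · rcases Nat.lt_or_ge b 4 with h | h
        · interval_cases b
          exact left_11_3
        · exact left_of_cond hm1 hb (cond_11 h)
      · rcases Nat.lt_or_ge b 4 with h | h
        · interval_cases b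
          exact left_12_3
        · exact left_of_cond hm1 hb (cond_12 h)
      · rcases Nat.lt_or_ge b 4 with h | h
        · interval_cases b
          exact left_13_3
        · exact left_of_cond hm1 hb (cond_13 h)
      · rcases Nat.lt_or_ge b 4 with h | h
        · interval_cases b
          exact left_14_3
        · exact left_of_cond hm1 hb (cond_14 h)
      · rcases Nat.lt_or_ge b 4 with h | h
        · interval_cases b
          exact left_15_3
        · exact left_of_cond hm1 hb (cond_15 h)
      · rcases Nat.lt_or_ge b 4 with h | h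
        · interval_cases b
          exact left_16_3
        · exact left_of_cond hm1 hb (cond_16 h)
      · rcases Nat.lt_or_ge b 4 with h | h
        · interval_cases b
          exact left_17_3
        · exact left_of_cond hm1 hb (cond_17 h)
      · rcases Nat.lt_or_ge b 4 with h | h
        · interval_cases b
          exact left_18_3
        · exact left_of_cond hm1 hb (cond_18 h)
    · exact left_of_cond hm1 hb (cond_large h19 h3)

lemma left_23_3 : cst 2 (3 + 1) < low 2 3 ∧ cst 3 (3 + 1) < low 3 3 := by
  constructor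
  · apply left_large (by norm_num) (by norm_num)
    have l1 : lam 2 3 1 = Real.log (5 / 2) := by unfold lam; norm_num
    rw [l1, L_self (by norm_num)]
    push_cast
    have := log_pow_le (u := 5 / 2) (v := 5) (p := 3) (q := 2) (by norm_num) (by norm_num)
    push_cast at this
    norm_num
    linarith
  · apply left_large (by norm_num) (by norm_num)
    have l1 : lam 3 3 1 = Real.log 2 := by unfold lam; norm_num
    rw [l1, L_self (by norm_num)]
    push_cast
    have := log_pow_le (u := 2) (v := 5) (p := 4) (q := 2) (by norm_num) (by norm_num)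
    push_cast at this
    norm_num
    linarith

/-- The left inequality for `m = 2`, `b ≤ 12`. -/
theorem left_two {b : ℕ} (hb : 1 ≤ b) (hb' : b ≤ 12) : cst 2 (b + 1) < low 2 b := by
  interval_cases b
  · exact left_b1 (by norm_num)
  · exact left_b2 (by norm_num)
  · exact left_23_3.1
  · exact left_2_4
  · exact left_2_5
  · exact left_2_6
  · exact left_2_7
  · exact left_2_8
  · exact left_2_9
  · exact left_2_10
  · exact left_2_11
  · exact left_2_12

/-- The left inequality for `m = 3`, `b ≤ 10` or `b ≥ 121`. -/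
theorem left_three {b : ℕ} (hb : 1 ≤ b) (hb' : b ≤ 10 ∨ 121 ≤ b) : cst 3 (b + 1) < low 3 b := by
  rcases hb' with h | h
  · interval_cases b
    · exact left_b1 (by norm_num)
    · exact left_b2 (by norm_num)
    · exact left_23_3.2
    · exact left_3_4
    · exact left_3_5
    · exact left_3_6
    · exact left_3_7
    · exact left_3_8
    · exact left_3_9
    · exact left_3_10
  · rcases Nat.lt_or_ge b 131 with h' | h'
    · interval_cases b
      · exact left_3_121
      · exact left_3_122
      · exact left_3_123
      · exact left_3_124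
      · exact left_3_125
      · exact left_3_126
      · exact left_3_127
      · exact left_3_128
      · exact left_3_129
      · exact left_3_130
    · exact left_of_cond (by norm_num) hb (cond_3 h')

/-- The left inequality in all cases in which the two constants separate it. -/
theorem left_all {m b : ℕ} (hm : 1 ≤ m) (hb : 1 ≤ b)
    (h : m = 1 ∨ 4 ≤ m ∨ (m = 2 ∧ b ≤ 12) ∨ (m = 3 ∧ (b ≤ 10 ∨ 121 ≤ b))) :
    cst m (b + 1) < low m b := by
  rcases h with rfl | h | ⟨rfl, h⟩ | ⟨rfl, h⟩
  · exact left_one hb
  · exact left_four h hb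
  · exact left_two hb h
  · exact left_three hb h

end Pool.Agent.Helper34.GC
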