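import Pool.Agent.Helper78.CP.SDefs
import Pool.Agent.Helper34.GC.Corner

/-! # Parameters of the mixture: lemmas for `Helper78/CP/Par.lean` -/

set_option autoImplicit false

namespace Pool.Agent.Helper34.GC

open Finset Filter
open Pool.Agent.Helper78.CP (Ys kst)

lemma Ys_one_le (q m b t : ℕ) (hq : 1 ≤ q) : 1 ≤ Ys q m b t := by
  induction t with
  | zero => simp [Ys]
  | succ t ih =>
    have hq' : (1 : ℝ) ≤ q := by exact_mod_cast hq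
    have h1 : (1 : ℝ) ≤ (2 * Ys q m b t) ^ m := one_le_pow₀ (by linarith)
    have h2 : (1 : ℝ) ≤ (1 + (b : ℝ)) ^ (m ^ 2) := one_le_pow₀ (by
      have : (0 : ℝ) ≤ b := Nat.cast_nonneg _
      linarith)
    have h3 : (1 : ℝ) ≤ (2 * Ys q m b t) ^ m * (1 + (b : ℝ)) ^ (m ^ 2) := by nlinarith
    have h4 : (1 : ℝ) ≤ (q : ℝ) * ((2 * Ys q m b t) ^ m * (1 + (b : ℝ)) ^ (m ^ 2)) := by nlinarith
    simp only [Ys]
    nlinarith

lemma Ys_poly (m b t : ℕ) : ∃ (K : ℝ) (k : ℕ), 1 ≤ K ∧ ∀ q : ℕ, 1 ≤ q →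
    Ys q m b t ≤ K * (q : ℝ) ^ k := by
  induction t with
  | zero => exact ⟨1, 0, le_refl _, fun q _ => by simp [Ys]⟩
  | succ t ih =>
    obtain ⟨K, k, hK, h⟩ := ih
    refine ⟨32 * (2 * K) ^ m * (1 + (b : ℝ)) ^ (m ^ 2), 1 + k * m, ?_, ?_⟩
    · have h1 : (1 : ℝ) ≤ (2 * K) ^ m := one_le_pow₀ (by linarith)
      have h2 : (1 : ℝ) ≤ (1 + (b : ℝ)) ^ (m ^ 2) := one_le_pow₀ (by
        have : (0 : ℝ) ≤ b := Nat.cast_nonneg _
        linarith)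
      nlinarith
    · intro q hq
      have hY := Ys_one_le q m b t hq
      have h1 : (2 * Ys q m b t) ^ m ≤ (2 * (K * (q : ℝ) ^ k)) ^ m :=
        pow_le_pow_left₀ (by linarith) (by have := h q hq; linarith) m
      have h2 : (0 : ℝ) ≤ (1 + (b : ℝ)) ^ (m ^ 2) := by positivity
      simp only [Ys]
      have e : 32 * (2 * K) ^ m * (1 + (b : ℝ)) ^ (m ^ 2) * (q : ℝ) ^ (1 + k * m) =
          2 * (16 * q * ((2 * (K * (q : ℝ) ^ k)) ^ m * (1 + (b : ℝ)) ^ (m ^ 2))) := by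
        rw [pow_add, pow_one, pow_mul, mul_pow (2 : ℝ) (K * _), mul_pow K, mul_pow 2 K]
        ring
      rw [e]
      gcongr
      
/-- The common factor of the conditions. -/
noncomputable def PP (m b A q : ℕ) (Λ : ℝ) : ℝ :=
  24 * kst m b * (q : ℝ) ^ 2 * ((1 + (b : ℝ)) * Λ * Ys q m b (A + 1) ^ 2 *
    (1 + (b : ℝ)) ^ (m ^ 2))

lemma kst_ge (m b : ℕ) (hm : 1 ≤ m) : (m : ℝ) + b ≤ kst m b ∧ 1 ≤ kst m b := by
  have hm' : (1 : ℝ) ≤ m := by exact_mod_cast hm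
  have hb' : (0 : ℝ) ≤ b := Nat.cast_nonneg _
  have h1 : (1 : ℝ) ≤ ((b : ℝ) + 1) ^ 2 := one_le_pow₀ (by linarith)
  unfold kst
  constructor <;> nlinarith

lemma PP_poly (m b A : ℕ) : ∃ (K : ℝ) (k : ℕ), 0 ≤ K ∧ ∀ (q : ℕ) (L : ℝ), 1 ≤ q → 0 ≤ L →
    PP m b A q (8 * ((q : ℝ) + 1) * L) ≤ K * (q : ℝ) ^ k * L := by
  obtain ⟨K, k, hK, h⟩ := Ys_poly m b (A + 1)
  refine ⟨24 * kst m b * ((1 + (b : ℝ)) * 16 * K ^ 2 * (1 + (b : ℝ)) ^ (m ^ 2)),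
    3 + 2 * k, ?_, ?_⟩
  · unfold kst; positivity
  · intro q L hq hL
    have hq' : (1 : ℝ) ≤ q := by exact_mod_cast hq
    have hY1 := Ys_one_le q m b (A + 1) hq
    have hY := h q hq
    have hk : 0 ≤ kst m b := by unfold kst; positivity
    have hY2 : Ys q m b (A + 1) ^ 2 ≤ (K * (q : ℝ) ^ k) ^ 2 :=
      pow_le_pow_left₀ (by linarith) hY 2
    have hΛ : 8 * ((q : ℝ) + 1) * L ≤ 16 * q * L := by nlinarith
    unfold PP
    have e : 24 * kst m b * ((1 + (b : ℝ)) * 16 * K ^ 2 * (1 + (b : ℝ)) ^ (m ^ 2)) *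
        (q : ℝ) ^ (3 + 2 * k) * L =
        24 * kst m b * (q : ℝ) ^ 2 * ((1 + (b : ℝ)) * (16 * q * L) * (K * (q : ℝ) ^ k) ^ 2 *
          (1 + (b : ℝ)) ^ (m ^ 2)) := by
      rw [pow_add, mul_comm 2 k, pow_mul, mul_pow]
      ring
    rw [e]
    gcongr

/-- Powers of `log N` are small. -/
lemma ev_log_pow (K : ℝ) (k : ℕ) {δ : ℝ} (hδ : 0 < δ) :
    ∀ᶠ N : ℕ in atTop, K * Real.log N ^ k ≤ (N : ℝ) ^ δ := by
  have h := (isLittleO_log_rpow_rpow_atTop (k : ℝ) hδ).comp_tendsto tendsto_natCast_atTop_atTop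
  have h2 := h.bound (show (0 : ℝ) < (|K| + 1)⁻¹ by positivity)
  filter_upwards [h2, eventually_ge_atTop 1] with N hN h1
  simp only [Function.comp_apply, Real.rpow_natCast, Real.norm_eq_abs] at hN
  have h1' : (1 : ℝ) ≤ N := by exact_mod_cast h1
  have hp : 0 ≤ Real.log (N : ℝ) ^ k := pow_nonneg (Real.log_nonneg h1') k
  have hpδ : 0 ≤ (N : ℝ) ^ δ := by positivity
  rw [abs_of_nonneg hp, abs_of_nonneg hpδ] at hN
  have h3 : (|K| + 1) * Real.log N ^ k ≤ (N : ℝ) ^ δ := by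
    have := mul_le_mul_of_nonneg_left hN (show (0 : ℝ) ≤ |K| + 1 by positivity)
    rwa [mul_inv_cancel_left₀ (by positivity)] at this
  have h4 : K * Real.log N ^ k ≤ (|K| + 1) * Real.log N ^ k := by
    apply mul_le_mul_of_nonneg_right _ hp
    have := le_abs_self K
    linarith
  linarith

/-- `N ^ e` and its floor. -/
lemma floor_bounds {x : ℝ} (hx : 2 ≤ x) : x / 2 ≤ (⌊x⌋₊ : ℝ) ∧ (⌊x⌋₊ : ℝ) ≤ x := by
  have h1 := Nat.lt_floor_add_one x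
  have h2 := Nat.floor_le (show 0 ≤ x by linarith)
  constructor
  · linarith
  · exact h2

end Pool.Agent.Helper34.GC
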