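import Pool.Agent.Helper34.GC.ParA

/-! # Parameters of the mixture: the conditions for one large `N` -/

set_option autoImplicit false

namespace Pool.Agent.Helper34.GC

open Finset Filter
open Pool.Agent.Helper78.CP (Ys kst Nums)

/-- The exponents of the sizes of the regions. -/
noncomputable def ex (x : ℝ) (a : ℕ) : ℝ := 1 - x * (3 : ℝ)⁻¹ ^ a

/-- Parts of the common factor. -/
lemma PP_parts {m b A q : ℕ} {Λ : ℝ} (hm : 1 ≤ m) (hq : 1 ≤ q) (hΛ : 1 ≤ Λ) :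
    24 * kst m b * (q : ℝ) ^ 2 * (Ys q m b (A + 1) ^ 2 * (1 + (b : ℝ)) ^ (m ^ 2)) ≤
      PP m b A q Λ ∧
    Ys q m b (A + 1) ^ 2 * (1 + (b : ℝ)) ^ (m ^ 2) ≤ PP m b A q Λ ∧
    24 * kst m b * (q : ℝ) ^ 2 ≤ PP m b A q Λ ∧ Ys q m b (A + 1) ≤ PP m b A q Λ ∧
    (q : ℝ) ≤ PP m b A q Λ ∧ ((m : ℝ) + b) * Λ ≤ PP m b A q Λ ∧ 1 ≤ PP m b A q Λ := by
  have hq' : (1 : ℝ) ≤ q := by exact_mod_cast hq
  have hb' : (0 : ℝ) ≤ b := Nat.cast_nonneg _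
  have hY1 := Ys_one_le q m b (A + 1) hq
  unfold PP
  generalize Ys q m b (A + 1) = Y at *
  have hW1 : (1 : ℝ) ≤ (1 + (b : ℝ)) ^ (m ^ 2) := one_le_pow₀ (by linarith)
  generalize (1 + (b : ℝ)) ^ (m ^ 2) = W at *
  obtain ⟨hk1, hk2⟩ := kst_ge m b hm
  generalize kst m b = k at *
  have hq2 : 1 ≤ (q : ℝ) ^ 2 := one_le_pow₀ hq'
  have hqq : (q : ℝ) ≤ (q : ℝ) ^ 2 := by nlinarith
  have hY2 : 1 ≤ Y ^ 2 := one_le_pow₀ hY1
  have hYY : Y ≤ Y ^ 2 := by nlinarith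
  generalize Y ^ 2 = Z at *
  generalize (q : ℝ) ^ 2 = Q at *
  have c1 : 1 ≤ (1 + (b : ℝ)) * Λ := one_le_mul_of_one_le_of_one_le (by linarith) hΛ
  have c1' : Λ ≤ (1 + (b : ℝ)) * Λ := le_mul_of_one_le_left (by linarith) (by linarith)
  generalize (1 + (b : ℝ)) * Λ = U at *
  have c3 : 1 ≤ Z * W := one_le_mul_of_one_le_of_one_le hY2 hW1
  have c3' : Z ≤ Z * W := le_mul_of_one_le_right (by linarith) hW1
  have c2 : Z * W ≤ U * Z * W := by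
    rw [mul_assoc]; exact le_mul_of_one_le_left (by linarith) c1
  have c4 : 1 ≤ 24 * k * Q := one_le_mul_of_one_le_of_one_le (by linarith) hq2
  have c4a : Q ≤ 24 * k * Q := le_mul_of_one_le_left (by linarith) (by linarith)
  have c4b : k ≤ 24 * k * Q := by
    have := le_mul_of_one_le_right (show 0 ≤ 24 * k by linarith) hq2
    linarith
  have c5 : U ≤ U * Z * W := by
    rw [mul_assoc]; exact le_mul_of_one_le_right (by linarith) c3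
  have c6 : 1 ≤ U * Z * W := le_trans c1 c5
  have pA : 24 * k * Q * (Z * W) ≤ 24 * k * Q * (U * Z * W) :=
    mul_le_mul_of_nonneg_left c2 (by linarith)
  have pB : Z * W ≤ 24 * k * Q * (U * Z * W) :=
    le_trans (le_mul_of_one_le_left (by linarith) c4) pA
  have pC : 24 * k * Q ≤ 24 * k * Q * (U * Z * W) := le_mul_of_one_le_right (by linarith) c6
  refine ⟨pA, pB, pC, ?_, ?_, ?_, ?_⟩
  · linarith
  · linarith
  · calc ((m : ℝ) + b) * Λ ≤ (24 * k * Q) * (U * Z * W) := by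
          apply mul_le_mul (by linarith) (by linarith) (by linarith) (by linarith)
      _ = _ := by ring
  · linarith

/-- Facts about the powers of `N`. -/
structure PF (N : ℝ) (D x P : ℝ) : Prop where
  use : ∀ {e : ℝ}, D ≤ e → 8 * P ≤ N ^ e
  use2 : ∀ {u v : ℝ}, D + u ≤ v → 8 * P * N ^ u ≤ N ^ v
  exb1 : ∀ a : ℕ, 1 - x ≤ ex x a
  exb2 : ∀ a : ℕ, ex x a < 1
  hex : ∀ a : ℕ, D ≤ ex x a
  fl1 : ∀ a : ℕ, N ^ ex x a / 2 ≤ (⌊N ^ ex x a⌋₊ : ℝ)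
  fl2 : ∀ a : ℕ, (⌊N ^ ex x a⌋₊ : ℝ) ≤ N ^ ex x a
  exs : ∀ a : ℕ, ex x (a + 1) = ex x a + 2 * (x * (3 : ℝ)⁻¹ ^ (a + 1))
  exs2 : ∀ a : ℕ, 2 * ex x (a + 1) = 1 + ex x a + x * (3 : ℝ)⁻¹ ^ (a + 1)

lemma mkPF {N P x : ℝ} {A : ℕ} (hA : 1 ≤ A) (hx : 0 < x) (hx96 : x ≤ 1 / 96) (hN1 : 1 ≤ N)
    (hP1 : 1 ≤ P) (hP : 8 * P ≤ N ^ (x * (3 : ℝ)⁻¹ ^ (A + 1))) :
    PF N (x * (3 : ℝ)⁻¹ ^ (A + 1)) x P ∧ 0 < x * (3 : ℝ)⁻¹ ^ (A + 1) ∧
    x * (3 : ℝ)⁻¹ ^ (A + 1) ≤ x / 9 ∧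
    (∀ a : ℕ, a ≤ A + 1 → x * (3 : ℝ)⁻¹ ^ (A + 1) ≤ x * (3 : ℝ)⁻¹ ^ a) ∧
    (∀ a : ℕ, 0 < x * (3 : ℝ)⁻¹ ^ a) := by
  have hN0 : 0 < N := by linarith
  have pw : ∀ {u v : ℝ}, u ≤ v → N ^ u ≤ N ^ v := fun h =>
    Real.rpow_le_rpow_of_exponent_le hN1 h
  have h3 : ∀ a : ℕ, a ≤ A + 1 → (3 : ℝ)⁻¹ ^ (A + 1) ≤ (3 : ℝ)⁻¹ ^ a := fun a ha =>
    pow_le_pow_of_le_one (by norm_num) (by norm_num) ha
  have h3' : ∀ a : ℕ, (3 : ℝ)⁻¹ ^ a ≤ 1 := fun a => pow_le_one₀ (by norm_num) (by norm_num)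
  have h3p : ∀ a : ℕ, 0 < x * (3 : ℝ)⁻¹ ^ a := fun a => by positivity
  have hDx : x * (3 : ℝ)⁻¹ ^ (A + 1) ≤ x / 9 := by
    have h : (3 : ℝ)⁻¹ ^ (A + 1) ≤ (3 : ℝ)⁻¹ ^ 2 :=
      pow_le_pow_of_le_one (by norm_num) (by norm_num) (by omega)
    have := mul_le_mul_of_nonneg_left h hx.le
    have e : x * (3 : ℝ)⁻¹ ^ 2 = x / 9 := by norm_num; ring
    linarith
  have exb1 : ∀ a : ℕ, 1 - x ≤ ex x a := by
    intro a
    unfold ex
    have h1 := mul_le_mul_of_nonneg_left (h3' a) hx.le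
    linarith
  have hex : ∀ a : ℕ, x * (3 : ℝ)⁻¹ ^ (A + 1) ≤ ex x a := by
    intro a
    have := exb1 a
    linarith
  have big2 : ∀ a : ℕ, 2 ≤ N ^ ex x a := fun a => by
    have := le_trans hP (pw (hex a)); linarith
  refine ⟨⟨fun h => le_trans hP (pw h), ?_, exb1, ?_, hex, fun a => (floor_bounds (big2 a)).1,
    fun a => (floor_bounds (big2 a)).2, ?_, ?_⟩, h3p _, hDx,
    fun a ha => mul_le_mul_of_nonneg_left (h3 a ha) hx.le, h3p⟩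
  · intro u v h
    calc 8 * P * N ^ u ≤ N ^ (x * (3 : ℝ)⁻¹ ^ (A + 1)) * N ^ u :=
          mul_le_mul_of_nonneg_right hP (by positivity)
      _ = N ^ (x * (3 : ℝ)⁻¹ ^ (A + 1) + u) := (Real.rpow_add hN0 _ _).symm
      _ ≤ N ^ v := pw h
  · intro a
    unfold ex
    have h2 := h3p a
    linarith
  · intro a; unfold ex; rw [pow_succ]; ring
  · intro a; unfold ex; rw [pow_succ]; ring

/-- The condition `big`. -/
lemma big_cond {N q : ℕ} (hN : 3 ≤ N) (hq : 1 ≤ q) (hL1 : 1 ≤ Real.log (N : ℝ)) :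
    (N : ℝ) ^ q * 2 ^ q * (32 * Real.exp (-(8 * ((q : ℝ) + 1) * Real.log N / 2))) ≤ 1 := by
  have hN0 : (0 : ℝ) < N := by exact_mod_cast (by omega : 0 < N)
  have hq' : (1 : ℝ) ≤ q := by exact_mod_cast hq
  have e1 : (N : ℝ) ^ q = Real.exp (q * Real.log N) := by
    rw [mul_comm, Real.exp_mul, Real.exp_log hN0, Real.rpow_natCast]
  have e2 : (2 : ℝ) ^ q ≤ Real.exp q := by
    have : (2 : ℝ) ≤ Real.exp 1 := by have := Real.exp_one_gt_d9; linarith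
    calc (2 : ℝ) ^ q ≤ (Real.exp 1) ^ q := pow_le_pow_left₀ (by norm_num) this q
      _ = Real.exp q := by rw [← Real.exp_nat_mul]; ring_nf
  have e3 : (32 : ℝ) ≤ Real.exp 4 := by
    have h1 : (2.7 : ℝ) ≤ Real.exp 1 := by have := Real.exp_one_gt_d9; linarith
    have h2 : Real.exp 4 = (Real.exp 1) ^ 4 := by rw [← Real.exp_nat_mul]; norm_num
    rw [h2]
    calc (32 : ℝ) ≤ 2.7 ^ 4 := by norm_num
      _ ≤ (Real.exp 1) ^ 4 := pow_le_pow_left₀ (by norm_num) h1 4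
  have hLq : (q : ℝ) ≤ q * Real.log N := le_mul_of_one_le_right (by linarith) hL1
  calc (N : ℝ) ^ q * 2 ^ q * (32 * Real.exp (-(8 * ((q : ℝ) + 1) * Real.log N / 2)))
      ≤ Real.exp (q * Real.log N) * Real.exp q *
          (Real.exp 4 * Real.exp (-(8 * ((q : ℝ) + 1) * Real.log N / 2))) := by
        rw [e1]; gcongr
    _ = Real.exp (q * Real.log N + q + (4 + -(8 * ((q : ℝ) + 1) * Real.log N / 2))) := by
        rw [Real.exp_add, Real.exp_add, Real.exp_add]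
    _ ≤ Real.exp 0 := by
        apply Real.exp_le_exp.2
        have e : 8 * ((q : ℝ) + 1) * Real.log N / 2 = 4 * (q * Real.log N) + 4 * Real.log N := by
          ring
        rw [e]
        linarith
    _ = 1 := Real.exp_zero

lemma n2_cond {N : ℕ} {c : ℝ} (hN0 : (0 : ℝ) < N) (h1 : c ≤ (N : ℝ) ^ (1 / 4 : ℝ)) :
    c * ((N : ℝ) ^ 2 * Real.exp (-(9 / 4 * Real.log N))) ≤ 1 := by
  have e1 : (N : ℝ) ^ 2 * Real.exp (-(9 / 4 * Real.log N)) = (N : ℝ) ^ (-(1 / 4) : ℝ) := by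
    have e2 : Real.exp (-(9 / 4 * Real.log N)) = (N : ℝ) ^ (-(9 / 4) : ℝ) := by
      rw [Real.rpow_def_of_pos hN0]; congr 1; ring
    rw [e2, ← Real.rpow_natCast, ← Real.rpow_add hN0]
    norm_num
  rw [e1]
  have h2 : (N : ℝ) ^ (1 / 4 : ℝ) * (N : ℝ) ^ (-(1 / 4) : ℝ) = 1 := by
    rw [← Real.rpow_add hN0]; norm_num
  calc c * (N : ℝ) ^ (-(1 / 4) : ℝ)
      ≤ (N : ℝ) ^ (1 / 4 : ℝ) * (N : ℝ) ^ (-(1 / 4) : ℝ) :=
        mul_le_mul_of_nonneg_right h1 (by positivity)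
    _ = 1 := h2

lemma last_cond {N F P Y a b c : ℝ} (hF : N / 2 ≤ F) (hN : 0 < N) (hY : Y ≤ P) (ha : 0 < a)
    (hb : 0 < b) (h : 8 * P * (b * a) ≤ N) (hP : 0 ≤ P) (hc : c = b⁻¹) :
    Y / F * a ≤ c := by
  have hF0 : 0 < F := by linarith
  rw [hc, div_mul_eq_mul_div, div_le_iff₀ hF0, ← one_div, div_mul_eq_mul_div, one_mul,
    le_div_iff₀ hb]
  have h8 : Y * a * b ≤ P * (b * a) := by
    rw [mul_assoc, mul_comm a b]
    exact mul_le_mul_of_nonneg_right hY (by positivity)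
  have h9 : 0 ≤ P * (b * a) := by positivity
  linarith

/-- The conditions for one `N`. -/
lemma nums_of {N A m b l q : ℕ} {x η μ : ℝ} (hm : 2 ≤ m) (hA : 1 ≤ A)
    (hx : 0 < x) (hη : η = 3 * x) (hμ : μ = 12 * x) (hμ1 : μ ≤ 1 / 8)
    (hN : 3 ≤ N) (hq : 1 ≤ q) (hlq : l * m ≤ q)
    (hP : 8 * PP m b A q (8 * ((q : ℝ) + 1) * Real.log N) ≤ (N : ℝ) ^ (x * (3 : ℝ)⁻¹ ^ (A + 1))) :
    Nums N A m b l q (fun a => ⌊(N : ℝ) ^ ex x a⌋₊) ((N : ℝ) ^ η) (8 * ((q : ℝ) + 1) * Real.log N)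
      (Real.exp (-(9 / 4 * Real.log N))) ∧
    ∀ a ≤ A, Ys q m b (A + 1) / (⌊(N : ℝ) ^ ex x a⌋₊ : ℝ) * (N : ℝ) ^ η ≤
      Real.exp (-((1 - μ) * Real.log N)) := by
  have hN0 : (0 : ℝ) < N := by exact_mod_cast (by omega : 0 < N)
  have hN1 : (1 : ℝ) ≤ N := by exact_mod_cast (by omega : 1 ≤ N)
  have hL1 : 1 ≤ Real.log (N : ℝ) := by
    rw [Real.le_log_iff_exp_le hN0]
    have := Real.exp_one_lt_d9
    have h3 : (3 : ℝ) ≤ N := by exact_mod_cast hN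
    linarith
  have hbig := big_cond hN hq hL1
  have hq' : (1 : ℝ) ≤ q := by exact_mod_cast hq
  have hΛ1 : 1 ≤ 8 * ((q : ℝ) + 1) * Real.log N :=
    one_le_mul_of_one_le_of_one_le (by linarith) hL1
  obtain ⟨pA, pB, pC, pD, pE, pF, hP1⟩ := PP_parts (b := b) (A := A) (by omega : 1 ≤ m) hq hΛ1
  obtain ⟨F, hD0, hDx, hDa, h3p⟩ := mkPF hA hx (by linarith) hN1 hP1 hP
  have hPe : PP m b A q (8 * ((q : ℝ) + 1) * Real.log N) = 24 * kst m b * (q : ℝ) ^ 2 *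
    ((1 + (b : ℝ)) * (8 * ((q : ℝ) + 1) * Real.log N) * Ys q m b (A + 1) ^ 2 *
      (1 + (b : ℝ)) ^ (m ^ 2)) := rfl
  generalize PP m b A q (8 * ((q : ℝ) + 1) * Real.log N) = P at *
  generalize x * (3 : ℝ)⁻¹ ^ (A + 1) = D at *
  have hlq' : (l : ℝ) * m ≤ q := by exact_mod_cast hlq
  have hm' : (2 : ℝ) ≤ m := by exact_mod_cast hm
  have hl0 : (0 : ℝ) ≤ l := Nat.cast_nonneg _
  have hlq2 : (l : ℝ) ≤ q := le_trans (le_mul_of_one_le_right hl0 (by linarith)) hlq'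
  have fl0 : ∀ a : ℕ, (0 : ℝ) ≤ (⌊(N : ℝ) ^ ex x a⌋₊ : ℝ) := fun a => Nat.cast_nonneg _
  have pos : ∀ e : ℝ, 0 < (N : ℝ) ^ e := fun e => by positivity
  have hη' := F.use (show D ≤ η by linarith)
  constructor
  · refine ⟨hq, ?_, ?_, ?_, ?_, ?_, ?_, ?_, hΛ1, ?_, hbig, (Real.exp_pos _).le, ?_, ?_, ?_, ?_, ?_,
      ?_, ?_⟩
    · linarith
    · intro a _
      have h1 := F.use2 (show D + η ≤ ex x a by have := F.exb1 a; linarith)
      have h2 := pos η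
      have h3 := F.fl1 a
      have h4 : 2 * (N : ℝ) ^ η ≤ 8 * P * (N : ℝ) ^ η :=
        mul_le_mul_of_nonneg_right (by linarith) h2.le
      show (N : ℝ) ^ η ≤ (⌊(N : ℝ) ^ ex x a⌋₊ : ℝ)
      linarith
    · intro a _
      have h1 := F.use (F.hex a)
      have h3 := F.fl1 a
      have h4 : (4 : ℝ) ≤ (⌊(N : ℝ) ^ ex x a⌋₊ : ℝ) := by linarith
      exact_mod_cast h4
    · intro a _
      have h1 : (N : ℝ) ^ ex x a ≤ (N : ℝ) ^ (1 : ℝ) :=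
        Real.rpow_le_rpow_of_exponent_le hN1 (F.exb2 a).le
      rw [Real.rpow_one] at h1
      have h2 := le_trans (F.fl2 a) h1
      exact_mod_cast h2
    · intro a _
      apply Nat.floor_le_floor
      apply Real.rpow_le_rpow_of_exponent_le hN1
      rw [F.exs]
      have := h3p (a + 1)
      linarith
    · linarith
    · intro a _
      have h1 := F.use (F.hex a)
      have h3 := F.fl1 a
      have h4 : (2 : ℝ) * (m * l) ≤ (⌊(N : ℝ) ^ ex x a⌋₊ : ℝ) := by linarith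
      exact_mod_cast h4
    · linarith
    · linarith
    · exact n2_cond hN0 (le_trans (le_trans pC (by linarith)) (F.use (show D ≤ 1 / 4 by linarith)))
    · intro t ht
      have h1 := F.use2 (show D + ex x t ≤ ex x (t + 1) by
        rw [F.exs]; have := hDa (t + 1) (by omega); linarith)
      have h2 := F.fl2 t
      have h3 := F.fl1 (t + 1)
      have h5 := mul_le_mul pA h2 (fl0 t) (by linarith)
      have h6 : 0 ≤ P * (N : ℝ) ^ ex x t := mul_nonneg (by linarith) (pos _).le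
      show 24 * kst m b * (q : ℝ) ^ 2 * (Ys q m b (A + 1) ^ 2 * (1 + (b : ℝ)) ^ (m ^ 2) *
        (⌊(N : ℝ) ^ ex x t⌋₊ : ℝ)) ≤ (⌊(N : ℝ) ^ ex x (t + 1)⌋₊ : ℝ)
      rw [← mul_assoc (24 * kst m b * (q : ℝ) ^ 2)]
      linarith
    · intro t ht
      have h1 := F.use2 (show D + 1 ≤ η + ex x (t + 1) by
        have := F.exb1 (t + 1); linarith)
      rw [Real.rpow_one, Real.rpow_add hN0] at h1
      have h3 := mul_le_mul_of_nonneg_left (F.fl1 (t + 1)) (pos η).le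
      have h6 : 0 ≤ P * N := mul_nonneg (by linarith) hN0.le
      show 24 * kst m b * (q : ℝ) ^ 2 * ((1 + (b : ℝ)) * (8 * ((q : ℝ) + 1) * Real.log N) *
        Ys q m b (A + 1) ^ 2 * (1 + (b : ℝ)) ^ (m ^ 2) * N) ≤
        (N : ℝ) ^ η * (⌊(N : ℝ) ^ ex x (t + 1)⌋₊ : ℝ)
      rw [← mul_assoc (24 * kst m b * (q : ℝ) ^ 2), ← hPe]
      linarith
    · intro t ht
      have h1 := F.use2 (show D + (ex x t + 1) ≤ ex x (t + 1) + ex x (t + 1) by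
        have := F.exs2 t; have := hDa (t + 1) (by omega); linarith)
      rw [Real.rpow_add hN0 (ex x t), Real.rpow_one, Real.rpow_add hN0] at h1
      have h2 := mul_le_mul_of_nonneg_right (F.fl2 t) hN0.le
      have h3 : ((N : ℝ) ^ ex x (t + 1) / 2) ^ 2 ≤ ((⌊(N : ℝ) ^ ex x (t + 1)⌋₊ : ℝ)) ^ 2 :=
        pow_le_pow_left₀ (by have := pos (ex x (t + 1)); linarith) (F.fl1 (t + 1)) 2
      have h5 := mul_le_mul pA h2 (mul_nonneg (fl0 t) hN0.le) (by linarith)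
      have h6 : 0 ≤ P * ((N : ℝ) ^ ex x t * N) :=
        mul_nonneg (by linarith) (mul_nonneg (pos _).le hN0.le)
      show 24 * kst m b * (q : ℝ) ^ 2 * (Ys q m b (A + 1) ^ 2 * (1 + (b : ℝ)) ^ (m ^ 2) *
        ((⌊(N : ℝ) ^ ex x t⌋₊ : ℝ) * N)) ≤ ((⌊(N : ℝ) ^ ex x (t + 1)⌋₊ : ℝ)) ^ 2
      rw [← mul_assoc (24 * kst m b * (q : ℝ) ^ 2)]
      have e : ((N : ℝ) ^ ex x (t + 1) / 2) ^ 2 =
        (N : ℝ) ^ ex x (t + 1) * (N : ℝ) ^ ex x (t + 1) / 4 := by ring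
      rw [e] at h3
      linarith
    · have h1 := F.use (F.hex 0)
      have h3 := F.fl1 0
      show Ys q m b (A + 1) ^ 2 * (1 + (b : ℝ)) ^ (m ^ 2) ≤ (⌊(N : ℝ) ^ ex x 0⌋₊ : ℝ)
      linarith
    · have h1 := F.use2 (show D + ex x A ≤ 1 by
        have := hDa A (by omega); unfold ex; linarith)
      rw [Real.rpow_one] at h1
      have h2 := F.fl2 A
      have h5 := mul_le_mul pE h2 (fl0 A) (by linarith)
      have h6 : 0 ≤ P * (N : ℝ) ^ ex x A := mul_nonneg (by linarith) (pos _).le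
      have h3 : (q : ℝ) * (⌊(N : ℝ) ^ ex x A⌋₊ : ℝ) ≤ N := by linarith
      exact_mod_cast h3
  · intro a _
    have h2 := F.use2 (show D + (1 - μ + η) ≤ ex x a by
      have := F.exb1 a; linarith)
    rw [Real.rpow_add hN0 (1 - μ)] at h2
    refine last_cond (F.fl1 a) (pos _) pD (pos η) (pos (1 - μ)) h2 (by linarith) ?_
    rw [Real.rpow_def_of_pos hN0, ← Real.exp_neg]; congr 1; ring

end Pool.Agent.Helper34.GC
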